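import Mathlib

/-!
# Packing indices of partition cells: groups with property (b) (helper949, the hand-in PackingInfiniteOrder)
-/

namespace Pool.Agent.H883B.InfOrder

universe u

/-- `G` is amenable: there is a left-invariant finitely additive probability measure on all
subsets of `G`. -/
def IsAmenable (G : Type u) [Group G] : Prop :=
  ∃ m : Set G → ℝ, (∀ A, 0 ≤ m A) ∧ m Set.univ = 1 ∧
    (∀ A B, Disjoint A B → m (A ∪ B) = m A + m B) ∧
    ∀ (g : G) (A : Set G), m ((fun x => g * x) '' A) = m A

/-- `pack(A) ≤ n`: every finite set `E` such that the left translates `x A`, `x ∈ E`, are pairwise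
disjoint has at most `n` elements. -/
def PackLE {G : Type u} [Group G] (A : Set G) (n : ℕ) : Prop :=
  ∀ E : Finset G, (∀ x ∈ E, ∀ y ∈ E, x ≠ y →
    Disjoint ((fun a => x * a) '' A) ((fun a => y * a) '' A)) → E.card ≤ n

/-- Property (b): every partition into `n` cells has a cell `A` with `pack(A) ≤ n`. -/
def PropertyB (G : Type u) [Group G] : Prop :=
  ∀ n : ℕ, 1 ≤ n → ∀ c : G → Fin n, ∃ i : Fin n, PackLE {x | c x = i} n

section

variable {G : Type u} [Group G]

/-- coordinates along the orbits of left multiplication by `s` -/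
lemma exists_coord (s : G) (hs : ¬ IsOfFinOrder s) :
    ∃ a : G → ℤ, ∀ (x : G) (j : ℤ), a (s ^ j * x) = a x + j := by
  classical
  have hinj : Function.Injective (fun n : ℤ => s ^ n) := injective_zpow_iff_not_isOfFinOrder.2 hs
  let r : G → G := fun x => (Quotient.mk (QuotientGroup.rightRel (Subgroup.zpowers s)) x).out
  have hr : ∀ x, ∃ n : ℤ, s ^ n = x * (r x)⁻¹ := by
    intro x
    have h1 : (QuotientGroup.rightRel (Subgroup.zpowers s)) (r x) x :=
      Quotient.exact (Quotient.out_eq _)
    rw [QuotientGroup.rightRel_apply] at h1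
    exact Subgroup.mem_zpowers_iff.1 h1
  choose a ha using hr
  refine ⟨a, fun x j => ?_⟩
  have hrr : r (s ^ j * x) = r x := by
    have : Quotient.mk (QuotientGroup.rightRel (Subgroup.zpowers s)) (s ^ j * x)
        = Quotient.mk (QuotientGroup.rightRel (Subgroup.zpowers s)) x := by
      apply Quotient.sound
      show (QuotientGroup.rightRel (Subgroup.zpowers s)) (s ^ j * x) x
      rw [QuotientGroup.rightRel_apply]
      refine Subgroup.mem_zpowers_iff.2 ⟨-j, ?_⟩
      simp
    show (Quotient.mk _ (s ^ j * x)).out = (Quotient.mk _ x).out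
    rw [this]
  apply hinj
  show s ^ (a (s ^ j * x)) = s ^ (a x + j)
  rw [ha, hrr, mul_assoc, ← ha, ← zpow_add, add_comm]

/-- the tile of `x` -/
def tl (s : G) (a : G → ℤ) (L : ℤ) (x : G) : G := s ^ (-(a x % L)) * x

lemma tl_eq {s : G} {a : G → ℤ} {L : ℤ} (x y : G) (h : tl s a L x = tl s a L y)
    (hp : a x % L = a y % L) : x = y := by
  unfold tl at h
  rw [hp] at h
  exact mul_left_cancel h

lemma tl_count {s : G} {a : G → ℤ} (L : ℕ) (hL : 0 < L) (X : Finset G) [DecidableEq G] :
    X.card + ((X.image fun x => s * x) \ X).card ≤ (X.image (tl s a L)).card * (L + 1) := by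
  classical
  have hL' : (0 : ℤ) < L := by exact_mod_cast hL
  have hcard : X.card + ((X.image fun x => s * x) \ X).card = (X ∪ X.image fun x => s * x).card := by
    rw [← Finset.card_union_of_disjoint (Finset.disjoint_sdiff), Finset.union_sdiff_self_eq_union]
  rw [hcard]
  let f : G → G × ℕ := fun z => if z ∈ X then (tl s a L z, (a z % L).toNat)
    else (tl s a L (s⁻¹ * z), (a (s⁻¹ * z) % L).toNat + 1)
  have hpos : ∀ z, 0 ≤ a z % L ∧ a z % L < L := fun z =>
    ⟨Int.emod_nonneg _ hL'.ne', Int.emod_lt_of_pos _ hL'⟩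
  have hmaps : ∀ z ∈ X ∪ X.image fun x => s * x, f z ∈ (X.image (tl s a L)) ×ˢ Finset.range (L + 1) := by
    intro z hz
    rw [Finset.mem_product, Finset.mem_range]
    by_cases hzX : z ∈ X
    · simp only [f, if_pos hzX]
      have := hpos z
      exact ⟨Finset.mem_image_of_mem _ hzX, by omega⟩
    · simp only [f, if_neg hzX]
      rcases Finset.mem_union.1 hz with h | h
      · exact absurd h hzX
      · obtain ⟨x, hx, rfl⟩ := Finset.mem_image.1 h
        have := hpos (s⁻¹ * (s * x))
        refine ⟨?_, by omega⟩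
        rw [inv_mul_cancel_left]
        exact Finset.mem_image_of_mem _ hx
  have hkey : ∀ x ∈ X, ∀ w, w ∉ X → tl s a L x = tl s a L (s⁻¹ * w) →
      (a x % L).toNat = (a (s⁻¹ * w) % L).toNat + 1 → False := by
    intro x hx w hw h1 h2
    have hx1 := hpos x
    have hw1 := hpos (s⁻¹ * w)
    have h3 : a x % L = a (s⁻¹ * w) % L + 1 := by omega
    apply hw
    have h4 : x = w := by
      unfold tl at h1
      rw [h3] at h1
      have h5 : s ^ (-(a (s⁻¹ * w) % L + 1)) * x
          = s ^ (-(a (s⁻¹ * w) % L)) * (s⁻¹ * x) := by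
        rw [neg_add, zpow_add, zpow_neg_one, mul_assoc]
      rw [h5] at h1
      have h6 := mul_left_cancel h1
      exact mul_left_cancel h6
    rw [← h4]; exact hx
  have hinj : ∀ z ∈ X ∪ X.image fun x => s * x, ∀ w ∈ X ∪ X.image fun x => s * x,
      f z = f w → z = w := by
    intro z hz w hw h
    by_cases hzX : z ∈ X <;> by_cases hwX : w ∈ X
    · simp only [f, if_pos hzX, if_pos hwX, Prod.mk.injEq] at h
      have h1 := hpos z
      have h2 := hpos w
      exact tl_eq z w h.1 (by omega)
    · simp only [f, if_pos hzX, if_neg hwX, Prod.mk.injEq] at h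
      exact (hkey z hzX w hwX h.1 h.2).elim
    · simp only [f, if_neg hzX, if_pos hwX, Prod.mk.injEq] at h
      exact (hkey w hwX z hzX h.1.symm h.2.symm).elim
    · simp only [f, if_neg hzX, if_neg hwX, Prod.mk.injEq] at h
      have h1 := hpos (s⁻¹ * z)
      have h2 := hpos (s⁻¹ * w)
      exact mul_left_cancel (tl_eq _ _ h.1 (by omega))
  have := Finset.card_le_card_of_injOn f hmaps (fun z hz w hw h => hinj z hz w hw h)
  rw [Finset.card_product, Finset.card_range] at this
  exact this

lemma exists_coloring {ι : Type u} [Fintype ι] (s : ι → G) (hs : ∀ i, ¬ IsOfFinOrder (s i))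
    [DecidableEq G]
    (hexp : ∀ X : Finset G, 2 * X.card ≤ ∑ i, ((X.image fun x => s i * x) \ X).card) :
    ∃ c : G → ι × Fin (Fintype.card ι + 1),
      ∀ p, ¬ PackLE {x | c x = p} (Fintype.card ι * (Fintype.card ι + 1)) := by
  classical
  set k := Fintype.card ι with hk
  choose a ha using fun i => exists_coord (s i) (hs i)
  let L : ℕ := k + 1
  have hL : 0 < L := Nat.succ_pos k
  have hL' : (0 : ℤ) < (L : ℤ) := by exact_mod_cast hL
  -- Hall
  let T : G → Finset (ι × G) := fun x => Finset.univ.image fun i => (i, tl (s i) (a i) L x)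
  have hHall : ∀ X : Finset G, X.card ≤ (X.biUnion T).card := by
    intro X
    have h1 : (X.biUnion T).card = ∑ i, (X.image (tl (s i) (a i) L)).card := by
      have : X.biUnion T = Finset.image (fun p : (Σ _ : ι, G) => (p.1, p.2))
          (Finset.univ.sigma (fun i : ι => X.image (tl (s i) (a i) L))) := by
        ext ⟨i, g⟩
        simp only [Finset.mem_biUnion, T, Finset.mem_image, Finset.mem_univ, true_and,
          Finset.mem_sigma, Prod.mk.injEq]
        constructor
        · rintro ⟨x, hx, j, hj, hg⟩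
          subst hj
          exact ⟨⟨j, g⟩, ⟨x, hx, hg⟩, rfl, rfl⟩
        · rintro ⟨⟨j, g'⟩, ⟨x, hx, hg⟩, h1, h2⟩
          simp only at h1 h2
          subst h1
          subst h2
          exact ⟨x, hx, j, rfl, hg⟩
      rw [this, Finset.card_image_of_injective, Finset.card_sigma]
      rintro ⟨i, g⟩ ⟨j, g'⟩ h
      simp only [Prod.mk.injEq] at h
      obtain ⟨h1, h2⟩ := h
      subst h1
      subst h2
      rfl
    rw [h1]
    have h2 : ∑ i : ι, (X.card + ((X.image fun x => s i * x) \ X).card)
        ≤ ∑ i : ι, (X.image (tl (s i) (a i) L)).card * (L + 1) :=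
      Finset.sum_le_sum fun i _ => tl_count (s := s i) (a := a i) L hL X
    rw [Finset.sum_add_distrib, ← Finset.sum_mul] at h2
    rw [Finset.sum_const, Finset.card_univ, ← hk, smul_eq_mul] at h2
    have h3 := hexp X
    have h4 : (k + 2) * X.card ≤ (∑ i : ι, (X.image (tl (s i) (a i) L)).card) * (k + 2) := by
      have : L + 1 = k + 2 := rfl
      rw [this] at h2
      calc (k + 2) * X.card = k * X.card + 2 * X.card := by ring
        _ ≤ k * X.card + ∑ i, ((X.image fun x => s i * x) \ X).card := by omega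
        _ ≤ _ := h2
    rw [mul_comm] at h4
    exact Nat.le_of_mul_le_mul_right h4 (by omega)
  obtain ⟨f, hfinj, hf⟩ := (Finset.all_card_le_biUnion_card_iff_exists_injective T).1 hHall
  have hf' : ∀ x, f x = ((f x).1, tl (s (f x).1) (a (f x).1) L x) := by
    intro x
    obtain ⟨i, -, hi⟩ := Finset.mem_image.1 (hf x)
    rw [← hi]
  let cl : G → ι × Fin (k + 1) := fun x =>
    ((f x).1, ⟨((a (f x).1 x / L) % ((k + 1 : ℕ) : ℤ)).toNat, by
      have h1 : (0 : ℤ) < ((k + 1 : ℕ) : ℤ) := by positivity
      have h2 := Int.emod_lt_of_pos (a (f x).1 x / L) h1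
      have h3 := Int.emod_nonneg (a (f x).1 x / L) h1.ne'
      omega⟩)
  refine ⟨cl, ?_⟩
  rintro ⟨i, p⟩ hpack
  have hzinj : Function.Injective (fun n : ℤ => s i ^ n) :=
    injective_zpow_iff_not_isOfFinOrder.2 (hs i)
  let E : Finset G := (Finset.range (k * L + 1)).image fun j : ℕ => s i ^ (j : ℤ)
  have hE : E.card = k * L + 1 := by
    rw [Finset.card_image_of_injective, Finset.card_range]
    intro j j' h
    have := hzinj h
    exact_mod_cast this
  -- separation
  have hsep : ∀ x y : G, cl x = (i, p) → cl y = (i, p) → ∀ j : ℤ, 0 < j → j ≤ k * L →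
      y = s i ^ j * x → False := by
    intro x y hx hy j hj0 hjL hyx
    have hx1 : (f x).1 = i := congrArg Prod.fst hx
    have hy1 : (f y).1 = i := congrArg Prod.fst hy
    have hx2 := congrArg (fun z : ι × Fin (k + 1) => ((z.2 : ℕ) : ℤ)) hx
    have hy2 := congrArg (fun z : ι × Fin (k + 1) => ((z.2 : ℕ) : ℤ)) hy
    simp only [cl] at hx2 hy2
    rw [hx1] at hx2
    rw [hy1] at hy2
    have hq : (0 : ℤ) < ((k + 1 : ℕ) : ℤ) := by positivity
    rw [Int.toNat_of_nonneg (Int.emod_nonneg _ hq.ne')] at hx2 hy2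
    have hmod : (a i x / L) % ((k + 1 : ℕ) : ℤ) = (a i y / L) % ((k + 1 : ℕ) : ℤ) :=
      hx2.trans hy2.symm
    have hay : a i y = a i x + j := by rw [hyx, ha]
    obtain ⟨w, hw⟩ : (((k + 1 : ℕ) : ℤ)) ∣ a i y / L - a i x / L := Int.ModEq.dvd hmod
    have hdx := Int.emod_add_mul_ediv (a i x) L
    have hdy := Int.emod_add_mul_ediv (a i y) L
    have hmx := Int.emod_nonneg (a i x) hL'.ne'
    have hmx' := Int.emod_lt_of_pos (a i x) hL'
    have hmy := Int.emod_nonneg (a i y) hL'.ne'
    have hmy' := Int.emod_lt_of_pos (a i y) hL'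
    have hdiff : a i y - a i x = L * (a i y / L - a i x / L) + (a i y % L - a i x % L) := by
      linarith
    rw [hw, hay] at hdiff
    have hdiff' : j = L * (((k + 1 : ℕ) : ℤ) * w) + ((a i x + j) % L - a i x % L) := by
      linarith
    rw [hay] at hmy hmy'
    rcases lt_trichotomy w 0 with hw0 | hw0 | hw0
    · have h1 : (L : ℤ) * (((k + 1 : ℕ) : ℤ) * w) ≤ L * (((k + 1 : ℕ) : ℤ) * (-1)) := by
        apply mul_le_mul_of_nonneg_left _ hL'.le
        exact mul_le_mul_of_nonneg_left (by omega) hq.le
      have h2 : (L : ℤ) * 1 ≤ L * ((k + 1 : ℕ) : ℤ) := by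
        apply mul_le_mul_of_nonneg_left _ hL'.le
        push_cast
        omega
      have h3 : (L : ℤ) * (((k + 1 : ℕ) : ℤ) * (-1)) = - (L * ((k + 1 : ℕ) : ℤ)) := by ring
      linarith
    · -- same tile
      subst hw0
      have h1 : a i y / L = a i x / L := by
        rw [mul_zero] at hw
        omega
      have h2 : tl (s i) (a i) L x = tl (s i) (a i) L y := by
        unfold tl
        rw [hyx, ← mul_assoc, ← zpow_add]
        congr 2
        rw [← hyx]
        have h3 : a i y % L - a i x % L = j := by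
          rw [h1] at hdy
          linarith
        omega
      have h3 : f x = f y := by
        rw [hf' x, hf' y, hx1, hy1, h2]
      have h4 := hfinj h3
      rw [← h4] at hyx
      have h5 : s i ^ j = 1 := by
        have : s i ^ j * x = 1 * x := by rw [one_mul]; exact hyx.symm
        exact mul_right_cancel this
      have h6 := hzinj (show s i ^ j = s i ^ (0 : ℤ) by rw [h5, zpow_zero])
      omega
    · have h1 : (L : ℤ) * (((k + 1 : ℕ) : ℤ) * 1) ≤ L * (((k + 1 : ℕ) : ℤ) * w) := by
        apply mul_le_mul_of_nonneg_left _ hL'.le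
        exact mul_le_mul_of_nonneg_left (by omega) hq.le
      have h2 : (L : ℤ) * (((k + 1 : ℕ) : ℤ) * 1) = k * L + L := by
        push_cast
        ring
      linarith
  have hdisj : ∀ x ∈ E, ∀ y ∈ E, x ≠ y →
      Disjoint ((fun b => x * b) '' {x | cl x = (i, p)}) ((fun b => y * b) '' {x | cl x = (i, p)}) := by
    intro x hx y hy hxy
    obtain ⟨j, hj, rfl⟩ := Finset.mem_image.1 hx
    obtain ⟨j', hj', rfl⟩ := Finset.mem_image.1 hy
    rw [Finset.mem_range] at hj hj'
    have hjj : j ≠ j' := fun h => hxy (by rw [h])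
    rw [Set.disjoint_left]
    rintro _ ⟨b, hb, rfl⟩ ⟨b', hb', hbb⟩
    have hbb' : s i ^ (j' : ℤ) * b' = s i ^ (j : ℤ) * b := hbb
    have hkL : ((k * L : ℕ) : ℤ) = (k : ℤ) * L := by push_cast; rfl
    rcases lt_or_gt_of_ne hjj with h | h
    · -- b = s^(j'-j) b'
      refine hsep b' b hb' hb ((j' : ℤ) - j) (by omega) (by rw [← hkL]; omega) ?_
      rw [zpow_sub, mul_assoc]
      have : (s i ^ (j : ℤ))⁻¹ * (s i ^ (j' : ℤ) * b') = b := by rw [hbb']; group
      rw [← mul_assoc, ((Commute.refl (s i)).zpow_zpow _ _).inv_right.eq, mul_assoc]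
      exact this.symm
    · refine hsep b b' hb hb' ((j : ℤ) - j') (by omega) (by rw [← hkL]; omega) ?_
      rw [zpow_sub, mul_assoc]
      have : (s i ^ (j' : ℤ))⁻¹ * (s i ^ (j : ℤ) * b) = b' := by rw [← hbb']; group
      rw [← mul_assoc, ((Commute.refl (s i)).zpow_zpow _ _).inv_right.eq, mul_assoc]
      exact this.symm
  have h1 := hpack E hdisj
  rw [hE] at h1
  have : k * L = k * (k + 1) := rfl
  omega


/-! ## Means from almost invariant finite sets -/

lemma mean_of_folner (I : Set G) [DecidableEq G]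
    (h : ∀ S : Finset I, ∀ k : ℕ, ∃ X : Finset G, X.Nonempty ∧
      (k + 1) * ∑ s ∈ S, ((X.image fun x => (s : G) * x) \ X).card ≤ X.card) :
    ∃ m : Set G → ℝ, (∀ A, 0 ≤ m A) ∧ m Set.univ = 1 ∧
      (∀ A B, Disjoint A B → m (A ∪ B) = m A + m B) ∧
      ∀ s ∈ I, ∀ A : Set G, m ((fun x => s * x) '' A) = m A := by
  classical
  choose X hXne hX using h
  let 𝒰 : Ultrafilter (Finset I × ℕ) := Ultrafilter.of Filter.atTop
  have h𝒰 : (𝒰 : Filter (Finset I × ℕ)) ≤ Filter.atTop := Ultrafilter.of_le _
  let φ : Set G → Finset I × ℕ → ℝ := fun A j =>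
    ((X j.1 j.2).filter fun x => x ∈ A).card / (X j.1 j.2).card
  have hXpos : ∀ j : Finset I × ℕ, (0 : ℝ) < (X j.1 j.2).card := fun j => by
    exact_mod_cast (hXne j.1 j.2).card_pos
  have hφ : ∀ A j, φ A j ∈ Set.Icc (0 : ℝ) 1 := by
    intro A j
    refine ⟨div_nonneg (Nat.cast_nonneg _) (hXpos j).le, (div_le_one (hXpos j)).2 ?_⟩
    exact_mod_cast Finset.card_filter_le _ _
  have hlim : ∀ A, ∃ l : ℝ, l ∈ Set.Icc (0 : ℝ) 1 ∧ Filter.Tendsto (φ A) 𝒰 (nhds l) := by
    intro A
    obtain ⟨l, hl, hl'⟩ := (isCompact_Icc (a := (0 : ℝ)) (b := 1)).ultrafilter_le_nhds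
      (𝒰.map (φ A)) (by
        rw [Filter.le_principal_iff]
        exact Filter.mem_map.2 (Filter.Eventually.of_forall (hφ A)))
    exact ⟨l, hl, hl'⟩
  choose m hm01 hm using hlim
  refine ⟨m, fun A => (hm01 A).1, ?_, ?_, ?_⟩
  · refine tendsto_nhds_unique (hm Set.univ) ?_
    have : φ Set.univ = fun _ => (1 : ℝ) := by
      funext j
      simp only [φ, Set.mem_univ, Finset.filter_true]
      exact div_self (hXpos j).ne'
    rw [this]
    exact tendsto_const_nhds
  · intro A B hAB
    refine tendsto_nhds_unique (hm (A ∪ B)) ?_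
    have : φ (A ∪ B) = fun j => φ A j + φ B j := by
      funext j
      simp only [φ]
      rw [← add_div, ← Nat.cast_add]
      congr 2
      rw [← Finset.card_union_of_disjoint, ← Finset.filter_or]
      · congr 1
        ext x
        simp
      · rw [Finset.disjoint_filter]
        intro x _ hxA hxB
        exact Set.disjoint_left.1 hAB hxA hxB
    rw [this]
    exact (hm A).add (hm B)
  · intro s hs A
    have hdiff : ∀ j : Finset I × ℕ, (⟨s, hs⟩ : I) ∈ j.1 →
        |φ ((fun x => s * x) '' A) j - φ A j| ≤ 1 / ((j.2 : ℝ) + 1) := by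
      intro j hj
      set Y := X j.1 j.2 with hY
      -- the defect
      have hdef : ((j.2 : ℝ) + 1) * ((Y.image fun x => s * x) \ Y).card ≤ Y.card := by
        have h1 := hX j.1 j.2
        have h2 : ((Y.image fun x => s * x) \ Y).card
            ≤ ∑ t ∈ j.1, ((Y.image fun x => (t : G) * x) \ Y).card :=
          Finset.single_le_sum (f := fun t : I => ((Y.image fun x => (t : G) * x) \ Y).card)
            (fun t _ => Nat.zero_le _) hj
        have h3 : (j.2 + 1) * ((Y.image fun x => s * x) \ Y).card ≤ Y.card :=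
          (Nat.mul_le_mul_left _ h2).trans h1
        exact_mod_cast h3
      have hcardim : (Y.image fun x => s * x).card = Y.card :=
        Finset.card_image_of_injective _ (mul_right_injective s)
      have hsymm : (Y \ (Y.image fun x => s * x)).card = ((Y.image fun x => s * x) \ Y).card := by
        rw [Finset.card_sdiff, Finset.card_sdiff, hcardim, Finset.inter_comm]
      -- the filtered sets
      have hA : (Y.filter fun x => x ∈ A).card
          = ((Y.image fun x => s * x).filter fun x => x ∈ (fun x => s * x) '' A).card := by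
        rw [← Finset.card_image_of_injective (Y.filter fun x => x ∈ A) (mul_right_injective s)]
        congr 1
        ext z
        simp only [Finset.mem_image, Finset.mem_filter, Set.mem_image]
        constructor
        · rintro ⟨x, ⟨hx, hxA⟩, rfl⟩
          exact ⟨⟨x, hx, rfl⟩, x, hxA, rfl⟩
        · rintro ⟨⟨x, hx, rfl⟩, y, hy, hxy⟩
          have : y = x := mul_left_cancel hxy
          exact ⟨x, ⟨hx, this ▸ hy⟩, rfl⟩
      have h1 : (Y.filter fun x => x ∈ (fun x => s * x) '' A).card
          ≤ (Y.filter fun x => x ∈ A).card + ((Y.image fun x => s * x) \ Y).card := by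
        rw [hA, ← hsymm]
        refine (Finset.card_le_card ?_).trans (Finset.card_union_le _ _)
        intro z hz
        rw [Finset.mem_filter] at hz
        rw [Finset.mem_union, Finset.mem_filter, Finset.mem_sdiff]
        by_cases hz' : z ∈ Y.image fun x => s * x
        · exact Or.inl ⟨hz', hz.2⟩
        · exact Or.inr ⟨hz.1, hz'⟩
      have h2 : (Y.filter fun x => x ∈ A).card
          ≤ (Y.filter fun x => x ∈ (fun x => s * x) '' A).card
            + ((Y.image fun x => s * x) \ Y).card := by
        rw [hA]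
        refine (Finset.card_le_card ?_).trans (Finset.card_union_le _ _)
        intro z hz
        rw [Finset.mem_filter] at hz
        rw [Finset.mem_union, Finset.mem_filter, Finset.mem_sdiff]
        by_cases hz' : z ∈ Y
        · exact Or.inl ⟨hz', hz.2⟩
        · exact Or.inr ⟨hz.1, hz'⟩
      have h1' : ((Y.filter fun x => x ∈ (fun x => s * x) '' A).card : ℝ)
          ≤ (Y.filter fun x => x ∈ A).card + ((Y.image fun x => s * x) \ Y).card := by
        exact_mod_cast h1
      have h2' : ((Y.filter fun x => x ∈ A).card : ℝ)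
          ≤ (Y.filter fun x => x ∈ (fun x => s * x) '' A).card
            + ((Y.image fun x => s * x) \ Y).card := by
        exact_mod_cast h2
      have hYpos : (0 : ℝ) < Y.card := hXpos j
      have hj1 : (0 : ℝ) < (j.2 : ℝ) + 1 := by positivity
      show |((Y.filter fun x => x ∈ (fun x => s * x) '' A).card : ℝ) / Y.card
        - (Y.filter fun x => x ∈ A).card / Y.card| ≤ _
      rw [← sub_div, abs_div, abs_of_pos hYpos, div_le_div_iff₀ hYpos hj1, one_mul]
      have h3 : |((Y.filter fun x => x ∈ (fun x => s * x) '' A).card : ℝ)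
          - (Y.filter fun x => x ∈ A).card| ≤ ((Y.image fun x => s * x) \ Y).card := by
        rw [abs_le]
        constructor <;> linarith
      calc |((Y.filter fun x => x ∈ (fun x => s * x) '' A).card : ℝ)
          - (Y.filter fun x => x ∈ A).card| * ((j.2 : ℝ) + 1)
          ≤ ((Y.image fun x => s * x) \ Y).card * ((j.2 : ℝ) + 1) :=
            mul_le_mul_of_nonneg_right h3 hj1.le
        _ = ((j.2 : ℝ) + 1) * ((Y.image fun x => s * x) \ Y).card := mul_comm _ _
        _ ≤ Y.card := hdef
    have hev : ∀ᶠ j in (𝒰 : Filter (Finset I × ℕ)), (⟨s, hs⟩ : I) ∈ j.1 := by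
      apply h𝒰
      filter_upwards [Filter.eventually_ge_atTop (({⟨s, hs⟩}, 0) : Finset I × ℕ)] with j hj
      exact (Prod.le_def.1 hj).1 (Finset.mem_singleton_self _)
    have hbound : Filter.Tendsto (fun j : Finset I × ℕ => 1 / ((j.2 : ℝ) + 1)) 𝒰 (nhds 0) := by
      have h1 : Filter.Tendsto (fun j : Finset I × ℕ => j.2) 𝒰 Filter.atTop := by
        refine Filter.Tendsto.mono_left ?_ h𝒰
        rw [← Filter.prod_atTop_atTop_eq]
        exact Filter.tendsto_snd
      exact tendsto_one_div_add_atTop_nhds_zero_nat.comp h1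
    have hzero : Filter.Tendsto (fun j => φ ((fun x => s * x) '' A) j - φ A j) 𝒰 (nhds 0) := by
      refine squeeze_zero_norm' ?_ hbound
      filter_upwards [hev] with j hj
      rw [Real.norm_eq_abs]
      exact hdiff j hj
    have := tendsto_nhds_unique ((hm ((fun x => s * x) '' A)).sub (hm A)) hzero
    linarith

/-- restriction of an invariant mean to a subgroup -/
lemma amenable_of_mean (N : Subgroup G) (m : Set G → ℝ) (m0 : ∀ A, 0 ≤ m A)
    (m1 : m Set.univ = 1) (madd : ∀ A B, Disjoint A B → m (A ∪ B) = m A + m B)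
    (minv : ∀ n ∈ N, ∀ A : Set G, m ((fun x => n * x) '' A) = m A) : IsAmenable N := by
  classical
  let r : G → G := fun x => (Quotient.mk (QuotientGroup.rightRel N) x).out
  have hr : ∀ x, x * (r x)⁻¹ ∈ N := by
    intro x
    have h1 : (QuotientGroup.rightRel N) (r x) x := Quotient.exact (Quotient.out_eq _)
    rwa [QuotientGroup.rightRel_apply] at h1
  have hrn : ∀ (n : N) (x : G), r ((n : G) * x) = r x := by
    intro n x
    have : Quotient.mk (QuotientGroup.rightRel N) ((n : G) * x)
        = Quotient.mk (QuotientGroup.rightRel N) x := by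
      apply Quotient.sound
      show (QuotientGroup.rightRel N) ((n : G) * x) x
      rw [QuotientGroup.rightRel_apply]
      have : x * ((n : G) * x)⁻¹ = (n : G)⁻¹ := by group
      rw [this]
      exact N.inv_mem n.2
    show (Quotient.mk _ ((n : G) * x)).out = (Quotient.mk _ x).out
    rw [this]
  let ρ : G → N := fun x => ⟨x * (r x)⁻¹, hr x⟩
  have hρ : ∀ (n : N) (x : G), ρ ((n : G) * x) = n * ρ x := by
    intro n x
    apply Subtype.ext
    show (n : G) * x * (r ((n : G) * x))⁻¹ = (n : G) * (x * (r x)⁻¹)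
    rw [hrn, mul_assoc]
  refine ⟨fun B => m (ρ ⁻¹' B), fun B => m0 _, m1, ?_, ?_⟩
  · intro A B hAB
    show m (ρ ⁻¹' (A ∪ B)) = _
    rw [Set.preimage_union]
    exact madd _ _ (hAB.preimage ρ)
  · intro n B
    show m (ρ ⁻¹' ((fun x => n * x) '' B)) = m (ρ ⁻¹' B)
    rw [← minv n n.2 (ρ ⁻¹' B)]
    congr 1
    ext x
    constructor
    · rintro ⟨b, hb, hbx⟩
      refine ⟨(n : G)⁻¹ * x, ?_, by simp⟩
      show ρ ((n : G)⁻¹ * x) ∈ B
      have h1 : ρ ((n : G)⁻¹ * x) = n⁻¹ * ρ x := by
        have := hρ n⁻¹ x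
        simpa using this
      rw [h1, ← hbx]
      simpa using hb
    · rintro ⟨y, hy, rfl⟩
      exact ⟨ρ y, hy, (hρ n y).symm⟩

/-- **Theorem.** Every group `G` with property (b) has an amenable normal subgroup that contains
all elements of infinite order. In particular a torsion-free group with property (b) is
amenable, and a group generated by elements of infinite order with property (b) is amenable. -/
theorem infOrder_result (G : Type u) [Group G] (hG : PropertyB G) :
    ∃ N : Subgroup G, N.Normal ∧ IsAmenable N ∧ ∀ g : G, ¬ IsOfFinOrder g → g ∈ N := by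
  classical
  let I : Set G := {g | ¬ IsOfFinOrder g}
  have hconj : Group.conjugatesOfSet I ⊆ I := by
    intro g hg
    obtain ⟨a, ha, hag⟩ := Group.mem_conjugatesOfSet_iff.1 hg
    intro hfin
    apply ha
    obtain ⟨c, hc⟩ := isConj_iff.1 hag
    have h1 : a = c⁻¹ * g * c := by rw [← hc]; group
    obtain ⟨n, hn, hgn⟩ := isOfFinOrder_iff_pow_eq_one.1 hfin
    refine isOfFinOrder_iff_pow_eq_one.2 ⟨n, hn, ?_⟩
    have h2 : (c⁻¹ * g * c) ^ n = c⁻¹ * g ^ n * c := by
      have := conj_pow (a := c⁻¹) (b := g) (i := n)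
      rwa [inv_inv] at this
    rw [h1, h2, hgn]
    group
  have hfol : ∀ S : Finset I, ∀ k : ℕ, ∃ X : Finset G, X.Nonempty ∧
      (k + 1) * ∑ s ∈ S, ((X.image fun x => (s : G) * x) \ X).card ≤ X.card := by
    by_contra hcon
    push Not at hcon
    obtain ⟨S, k, hS⟩ := hcon
    -- repeat every element of `S`
    let ι := S × ULift.{u} (Fin (2 * (k + 1)))
    let s : ι → G := fun i => ((i.1 : I) : G)
    have hs : ∀ i, ¬ IsOfFinOrder (s i) := fun i => (i.1 : I).2
    have hexp : ∀ X : Finset G, 2 * X.card ≤ ∑ i, ((X.image fun x => s i * x) \ X).card := by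
      intro X
      rcases X.eq_empty_or_nonempty with hX | hX
      · subst hX; simp
      · have h1 := hS X hX
        have h2 : ∑ i : ι, ((X.image fun x => s i * x) \ X).card
            = 2 * (k + 1) * ∑ t ∈ S, ((X.image fun x => (t : G) * x) \ X).card := by
          rw [Fintype.sum_prod_type]
          simp only [s]
          rw [Finset.sum_congr rfl (fun t _ => Finset.sum_const _)]
          rw [← Finset.smul_sum, Finset.card_univ, smul_eq_mul, Fintype.card_ulift,
            Fintype.card_fin]
          congr 1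
          exact Finset.sum_coe_sort S (fun t => ((X.image fun x => (t : G) * x) \ X).card)
        rw [h2, mul_assoc]
        exact Nat.mul_le_mul_left 2 h1.le
    obtain ⟨K, hK⟩ : ∃ K, K = Fintype.card ι := ⟨_, rfl⟩
    obtain ⟨c, hc⟩ : ∃ c : G → ι × Fin (K + 1), ∀ p, ¬ PackLE {x | c x = p} (K * (K + 1)) := by
      rw [hK]
      exact exists_coloring s hs hexp
    have hKpos : 0 < K := by
      by_contra hcon
      have h0 : K = 0 := by omega
      have : IsEmpty ι := Fintype.card_eq_zero_iff.1 (hK ▸ h0)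
      have h1 := hexp {1}
      simp at h1
    have hn : 1 ≤ K * (K + 1) := Nat.mul_pos hKpos (Nat.succ_pos _)
    let e : ι × Fin (K + 1) ≃ Fin (K * (K + 1)) :=
      Fintype.equivFinOfCardEq (by rw [Fintype.card_prod, Fintype.card_fin, ← hK])
    obtain ⟨i, hi⟩ := hG (K * (K + 1)) hn (fun x => e (c x))
    apply hc (e.symm i)
    have : {x | c x = e.symm i} = {x | e (c x) = i} := by
      ext x
      show c x = e.symm i ↔ e (c x) = i
      exact Equiv.eq_symm_apply e
    rw [this]
    exact hi
  obtain ⟨m, m0, m1, madd, minv⟩ := mean_of_folner I hfol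
  refine ⟨Subgroup.normalClosure I, inferInstance, ?_, fun g hg => Subgroup.subset_normalClosure hg⟩
  refine amenable_of_mean _ m m0 m1 madd ?_
  have himg : ∀ (g : G) (A : Set G),
      (fun x => g⁻¹ * x) '' ((fun x => g * x) '' A) = A := by
    intro g A
    rw [Set.image_image]
    simp
  intro n hn
  refine Subgroup.closure_induction (p := fun n _ => ∀ A : Set G,
    m ((fun x => n * x) '' A) = m A) ?_ ?_ ?_ ?_ hn
  · intro x hx A
    exact minv x (hconj hx) A
  · intro A
    simp
  · intro x y _ _ hx hy A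
    have : (fun z => x * y * z) '' A = (fun z => x * z) '' ((fun z => y * z) '' A) := by
      rw [Set.image_image]
      simp [mul_assoc]
    rw [this, hx, hy]
  · intro x _ hx A
    have h1 := hx ((fun z => x⁻¹ * z) '' A)
    have h2 : (fun z => x * z) '' ((fun z => x⁻¹ * z) '' A) = A := by
      rw [Set.image_image]
      simp
    rw [h2] at h1
    exact h1.symm

end

end Pool.Agent.H883B.InfOrder
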