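import Pool.Agent.H883B.Stmts
import Pool.Agent.H883B.InfOrder

/-!
# Hall's theorem on the cosets of finite subgroups
-/

namespace Pool.Agent.H883B

universe u

section

variable {G : Type u} [Group G]

/-- a representative of the right coset `F x` -/
noncomputable def rep (F : Subgroup G) (x : G) : G :=
  (Quotient.mk (QuotientGroup.rightRel F) x).out

lemma rep_mem (F : Subgroup G) (x : G) : x * (rep F x)⁻¹ ∈ F := by
  have h1 : (QuotientGroup.rightRel F) (rep F x) x := Quotient.exact (Quotient.out_eq _)
  rwa [QuotientGroup.rightRel_apply] at h1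

lemma rep_mul (F : Subgroup G) {s : G} (hs : s ∈ F) (x : G) : rep F (s * x) = rep F x := by
  have : Quotient.mk (QuotientGroup.rightRel F) (s * x)
      = Quotient.mk (QuotientGroup.rightRel F) x := by
    apply Quotient.sound
    show (QuotientGroup.rightRel F) (s * x) x
    rw [QuotientGroup.rightRel_apply]
    have : x * (s * x)⁻¹ = s⁻¹ := by group
    rw [this]
    exact F.inv_mem hs
  show (Quotient.mk _ (s * x)).out = (Quotient.mk _ x).out
  rw [this]

open Classical in
lemma card_tile_le (F : Subgroup G) [Finite F] (X : Finset G) (a : G) :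
    (X.filter (fun x => rep F x = a)).card ≤ Nat.card F := by
  have : Fintype F := Fintype.ofFinite F
  rw [Nat.card_eq_fintype_card, ← Finset.card_univ]
  refine Finset.card_le_card_of_injOn (fun x => if h : x * a⁻¹ ∈ F then ⟨x * a⁻¹, h⟩ else 1)
    (fun _ _ => Finset.mem_univ _) ?_
  intro x hx y hy hxy
  have hx1 : x * a⁻¹ ∈ F := by
    have := rep_mem F x
    rw [(Finset.mem_filter.1 hx).2] at this
    exact this
  have hy1 : y * a⁻¹ ∈ F := by
    have := rep_mem F y
    rw [(Finset.mem_filter.1 hy).2] at this
    exact this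
  simp only [hx1, hy1, dif_pos, Subtype.mk.injEq] at hxy
  exact mul_right_cancel hxy

/-- Hall's theorem gives a partition into `K c` cells with `L` disjoint translates. -/
theorem exists_coloring_fin {ι : Type u} [Fintype ι] [DecidableEq G] (s : ι → G)
    (F : ι → Subgroup G) (L c : ℕ) (hL0 : 0 < L) (hF : ∀ i, Finite (F i))
    (hL : ∀ i, Nat.card (F i) = L) (hs : ∀ i, s i ∈ F i)
    (hexp : ∀ X : Finset G, L * X.card ≤
      c * ∑ i, (X.card + ((X.image fun x => s i * x) \ X).card)) :
    ∃ col : G → ι × Fin c, ∀ p, PackGe {x | col x = p} L := by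
  classical
  let T : G → Finset (ι × G × Fin c) := fun x =>
    Finset.univ.image (fun p : ι × Fin c => (p.1, rep (F p.1) x, p.2))
  have hHall : ∀ X : Finset G, X.card ≤ (X.biUnion T).card := by
    intro X
    have h1 : (X.biUnion T).card = ∑ i : ι, c * (X.image (rep (F i))).card := by
      have h2 : X.biUnion T = Finset.image (fun p : (Σ _ : ι, Fin c × G) => (p.1, p.2.2, p.2.1))
          (Finset.univ.sigma (fun i : ι => Finset.univ ×ˢ X.image (rep (F i)))) := by
        ext ⟨i, g, j⟩
        simp only [T, Finset.mem_biUnion, Finset.mem_image, Finset.mem_univ, true_and,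
          Finset.mem_sigma, Finset.mem_product, Prod.mk.injEq]
        constructor
        · rintro ⟨x, hx, ⟨i', j'⟩, rfl, rfl, rfl⟩
          exact ⟨⟨i', j', rep (F i') x⟩, ⟨x, hx, rfl⟩, rfl, rfl, rfl⟩
        · rintro ⟨⟨i', j', g'⟩, ⟨x, hx, hx'⟩, rfl, rfl, rfl⟩
          exact ⟨x, hx, ⟨i', j'⟩, rfl, hx', rfl⟩
      rw [h2, Finset.card_image_of_injective, Finset.card_sigma]
      · apply Finset.sum_congr rfl
        intro i _
        rw [Finset.card_product, Finset.card_univ, Fintype.card_fin]
      · rintro ⟨i, j, g⟩ ⟨i', j', g'⟩ h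
        simp only [Prod.mk.injEq] at h
        obtain ⟨rfl, rfl, rfl⟩ := h
        rfl
    have h3 : ∀ i : ι, X.card + ((X.image fun x => s i * x) \ X).card
        ≤ L * (X.image (rep (F i))).card := by
      intro i
      have := hF i
      have h4 : X.card + ((X.image fun x => s i * x) \ X).card
          = (X ∪ X.image fun x => s i * x).card := by
        rw [Finset.card_union, ← Finset.card_sdiff_add_card_inter (X.image fun x => s i * x) X,
          Finset.inter_comm X]
        omega
      have h5 : (X ∪ X.image fun x => s i * x).image (rep (F i)) = X.image (rep (F i)) := by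
        ext g
        simp only [Finset.mem_image, Finset.mem_union]
        constructor
        · rintro ⟨x, hx | ⟨y, hy, rfl⟩, rfl⟩
          · exact ⟨x, hx, rfl⟩
          · exact ⟨y, hy, (rep_mul _ (hs i) y).symm⟩
        · rintro ⟨x, hx, rfl⟩
          exact ⟨x, Or.inl hx, rfl⟩
      rw [h4, ← h5]
      apply Finset.card_le_mul_card_image
      intro a _
      rw [← hL i]
      have h7 := card_tile_le (F i) (X ∪ X.image fun x => s i * x) a
      convert h7
    have h6 : L * X.card ≤ L * (X.biUnion T).card := by
      calc L * X.card ≤ c * ∑ i, (X.card + ((X.image fun x => s i * x) \ X).card) := hexp X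
        _ ≤ c * ∑ i, L * (X.image (rep (F i))).card :=
            Nat.mul_le_mul_left c (Finset.sum_le_sum (fun i _ => h3 i))
        _ = L * (X.biUnion T).card := by
            rw [h1, Finset.mul_sum, Finset.mul_sum]
            apply Finset.sum_congr rfl
            intro i _
            ring
    exact Nat.le_of_mul_le_mul_left h6 hL0
  obtain ⟨f, hf, hfT⟩ := (Finset.all_card_le_biUnion_card_iff_exists_injective T).1 hHall
  have hf2 : ∀ x, (f x).2.1 = rep (F (f x).1) x := by
    intro x
    have := hfT x
    simp only [T, Finset.mem_image, Finset.mem_univ, true_and] at this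
    obtain ⟨p, hp⟩ := this
    rw [← hp]
  refine ⟨fun x => ((f x).1, (f x).2.2), ?_⟩
  rintro ⟨i, j⟩
  have := hF i
  refine ⟨(Set.toFinite (F i : Set G)).toFinset, ?_, ?_⟩
  · rw [← hL i, ← Set.ncard_eq_toFinset_card (F i : Set G) (Set.toFinite _)]
    rfl
  · intro x hx y hy hxy
    rw [Set.disjoint_left]
    rintro _ ⟨a, ha, rfl⟩ ⟨b, hb, hab⟩
    simp only [Set.Finite.coe_toFinset, SetLike.mem_coe] at hx hy
    simp only [Set.mem_ofPred_eq, Prod.mk.injEq] at ha hb
    have hab' : b = y⁻¹ * x * a := by
      have h1 : y * b = x * a := hab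
      rw [mul_assoc, ← h1]; group
    have hrep : rep (F i) b = rep (F i) a := by
      rw [hab']
      exact rep_mul _ ((F i).mul_mem ((F i).inv_mem hy) hx) a
    have hfab : f a = f b := by
      apply Prod.ext
      · rw [ha.1, hb.1]
      · apply Prod.ext
        · rw [hf2, hf2, ha.1, hb.1, hrep]
        · rw [ha.2, hb.2]
    have := hf hfab
    subst this
    apply hxy
    have h2 : y * a = x * a := hab
    exact (mul_right_cancel h2).symm

end

end Pool.Agent.H883B
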