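import Pool.Agent.H883B.Core

/-!
# Infinite locally finite subgroups of groups with property (b)
-/

namespace Pool.Agent.H883B

universe u

section

variable {G : Type u} [Group G]

open Pool.Agent.H883B.InfOrder (mean_of_folner amenable_of_mean)

lemma not_packGe_of_pack_le {A : Set G} {n k : ℕ} (h : pack A ≤ n) (hnk : n < k) :
    ¬ PackGe A k := by
  rintro ⟨E, hE, hP⟩
  have h1 : ((E : Set G)).encard ≤ pack A :=
    le_iSup (fun E : {E : Set G // Packs E A} => (E : Set G).encard) ⟨(E : Set G), hP⟩
  rw [Set.encard_coe_eq_coe_finsetCard, hE] at h1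
  have h2 := h1.trans h
  have h3 : k ≤ n := by exact_mod_cast h2
  omega

/-- **Key step.** In a group with property (b) the normal closure of an infinite locally finite
subgroup is amenable. -/
theorem amenable_normalClosure (hB : PropertyB G) (H : Subgroup G) (hH : LocFin H)
    (hinf : Infinite H) : IsAmenable (Subgroup.normalClosure (H : Set G)) := by
  classical
  let I : Set G := Group.conjugatesOfSet (H : Set G)
  have hfol : ∀ S : Finset I, ∀ k : ℕ, ∃ X : Finset G, X.Nonempty ∧
      (k + 1) * ∑ s ∈ S, ((X.image fun x => (s : G) * x) \ X).card ≤ X.card := by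
    by_contra hcon
    push Not at hcon
    obtain ⟨S, k, hS⟩ := hcon
    let ι := {x // x ∈ S}
    let s : ι → G := fun i => ((i : I) : G)
    have hconj : ∀ i : ι, ∃ h ∈ H, ∃ x : G, x * h * x⁻¹ = s i := by
      intro i
      obtain ⟨a, ha, hag⟩ := Group.mem_conjugatesOfSet_iff.1 (i : I).2
      obtain ⟨x, hx⟩ := isConj_iff.1 hag
      exact ⟨a, ha, x, hx⟩
    choose h hh x hx using hconj
    set K := Fintype.card ι with hK
    -- a large finite subgroup
    obtain ⟨s0, hs0, hs0c⟩ : ∃ s0 : Finset G, (∀ x ∈ s0, x ∈ H) ∧ K * K * (k + 1) + 1 ≤ s0.card := by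
      obtain ⟨t, ht⟩ := Infinite.exists_subset_card_eq H (K * K * (k + 1) + 1)
      refine ⟨t.image (fun y : H => (y : G)), ?_, ?_⟩
      · intro x hx
        obtain ⟨y, _, rfl⟩ := Finset.mem_image.1 hx
        exact y.2
      · rw [Finset.card_image_of_injective _ Subtype.val_injective, ht]
    let s1 : Finset G := s0 ∪ Finset.univ.image h
    have hs1 : ∀ x ∈ s1, x ∈ H := by
      intro y hy
      rcases Finset.mem_union.1 hy with hy | hy
      · exact hs0 y hy
      · obtain ⟨i, _, rfl⟩ := Finset.mem_image.1 hy
        exact hh i
    let F0 : Subgroup G := Subgroup.closure (s1 : Set G)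
    have hF0 : Finite F0 := hH s1 hs1
    let F : ι → Subgroup G := fun i => F0.map (MulAut.conj (x i)).toMonoidHom
    let L := Nat.card F0
    have hLbig : K * K * (k + 1) < L := by
      have h1 : s0.card ≤ L := by
        have : Fintype F0 := Fintype.ofFinite F0
        show s0.card ≤ Nat.card F0
        rw [Nat.card_eq_fintype_card, ← Finset.card_univ]
        refine Finset.card_le_card_of_injOn (fun y => if hy : y ∈ F0 then ⟨y, hy⟩ else 1)
          (fun _ _ => Finset.mem_univ _) ?_
        intro a ha b hb hab
        have ha1 : a ∈ F0 := Subgroup.subset_closure (by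
          simp only [s1, Finset.coe_union, Set.mem_union]; exact Or.inl ha)
        have hb1 : b ∈ F0 := Subgroup.subset_closure (by
          simp only [s1, Finset.coe_union, Set.mem_union]; exact Or.inl hb)
        simp only [ha1, hb1, dif_pos, Subtype.mk.injEq] at hab
        exact hab
      omega
    have hFcard : ∀ i, Nat.card (F i) = L := by
      intro i
      exact (Nat.card_congr (F0.equivMapOfInjective _ (MulAut.conj (x i)).injective).toEquiv).symm
    have hFfin : ∀ i, Finite (F i) := by
      intro i
      exact Finite.of_equiv F0 (F0.equivMapOfInjective _ (MulAut.conj (x i)).injective).toEquiv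
    have hsF : ∀ i, s i ∈ F i := by
      intro i
      refine Subgroup.mem_map.2 ⟨h i, Subgroup.subset_closure ?_, ?_⟩
      · simp only [s1, Finset.coe_union, Set.mem_union]
        right
        exact Finset.mem_coe.2 (Finset.mem_image.2 ⟨i, Finset.mem_univ _, rfl⟩)
      · exact hx i
    let M := K * (k + 1) + 1
    let c := (L * (k + 1) + (M - 1)) / M
    have hM : 0 < M := Nat.succ_pos _
    have hc1 : L * (k + 1) ≤ c * M := by
      have := Nat.lt_mul_div_succ (L * (k + 1) + (M - 1)) hM
      have h2 : M * ((L * (k + 1) + (M - 1)) / M + 1) = c * M + M := by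
        show _ = (L * (k + 1) + (M - 1)) / M * M + M
        ring
      rw [h2] at this
      omega
    have hc2 : K * c < L := by
      have h1 : c * M ≤ L * (k + 1) + (M - 1) := Nat.div_mul_le_self _ _
      have hM1 : M - 1 = K * (k + 1) := rfl
      rw [hM1] at h1
      have h2 : K * c * M < L * M := by
        calc K * c * M = K * (c * M) := by ring
          _ ≤ K * (L * (k + 1) + K * (k + 1)) := Nat.mul_le_mul_left K h1
          _ = K * L * (k + 1) + K * K * (k + 1) := by ring
          _ < K * L * (k + 1) + L := by omega
          _ = L * M := by show _ = L * (K * (k + 1) + 1); ring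
      exact Nat.lt_of_mul_lt_mul_right h2
    have hL0 : 0 < L := by omega
    have hsum : ∀ X : Finset G, X.card ≤ (k + 1) * ∑ i, ((X.image fun x => s i * x) \ X).card := by
      intro X
      rcases X.eq_empty_or_nonempty with hX | hX
      · subst hX; simp
      · have h1 := hS X hX
        have h2 : ∑ i : ι, ((X.image fun x => s i * x) \ X).card
            = ∑ t ∈ S, ((X.image fun x => (t : G) * x) \ X).card :=
          Finset.sum_coe_sort S (fun t => ((X.image fun x => (t : G) * x) \ X).card)
        rw [h2]
        exact h1.le
    have hexp : ∀ X : Finset G, L * X.card ≤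
        c * ∑ i, (X.card + ((X.image fun x => s i * x) \ X).card) := by
      intro X
      rw [Finset.sum_add_distrib, Finset.sum_const, Finset.card_univ, smul_eq_mul, ← hK]
      have h1 := hsum X
      set D := ∑ i, ((X.image fun x => s i * x) \ X).card
      have h2 : (k + 1) * (L * X.card) ≤ (k + 1) * (c * (K * X.card + D)) := by
        calc (k + 1) * (L * X.card) = (L * (k + 1)) * X.card := by ring
          _ ≤ (c * M) * X.card := Nat.mul_le_mul_right _ hc1
          _ = c * ((k + 1) * (K * X.card) + X.card) := by
              show c * (K * (k + 1) + 1) * X.card = _; ring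
          _ ≤ c * ((k + 1) * (K * X.card) + (k + 1) * D) :=
              Nat.mul_le_mul_left _ (Nat.add_le_add_left h1 _)
          _ = (k + 1) * (c * (K * X.card + D)) := by ring
      exact Nat.le_of_mul_le_mul_left h2 (Nat.succ_pos k)
    obtain ⟨col, hcol⟩ := exists_coloring_fin s F L c hL0 hFfin hFcard hsF hexp
    have hn : 1 ≤ K * c := by
      by_contra hcon
      have h0 : K * c = 0 := by omega
      have hcard : Fintype.card (ι × Fin c) = 0 := by
        rw [Fintype.card_prod, Fintype.card_fin, ← hK, h0]
      have : IsEmpty (ι × Fin c) := Fintype.card_eq_zero_iff.1 hcard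
      exact this.false (col 1)
    let e : ι × Fin c ≃ Fin (K * c) :=
      Fintype.equivFinOfCardEq (by rw [Fintype.card_prod, Fintype.card_fin, ← hK])
    obtain ⟨i, hi⟩ := hB (K * c) hn (fun x => e (col x))
    refine not_packGe_of_pack_le hi hc2 ?_
    have : {x | col x = e.symm i} = {x | e (col x) = i} := by
      ext x
      show col x = e.symm i ↔ e (col x) = i
      exact Equiv.eq_symm_apply e
    rw [← this]
    exact hcol _
  obtain ⟨m, m0, m1, madd, minv⟩ := mean_of_folner I hfol
  refine amenable_of_mean _ m m0 m1 madd ?_
  intro n hn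
  refine Subgroup.closure_induction (p := fun n _ => ∀ A : Set G,
    m ((fun x => n * x) '' A) = m A) ?_ ?_ ?_ ?_ hn
  · intro x hx A
    exact minv x hx A
  · intro A
    simp
  · intro x y _ _ hx hy A
    have : (fun z => x * y * z) '' A = (fun z => x * z) '' ((fun z => y * z) '' A) := by
      rw [Set.image_image]
      simp [mul_assoc]
    rw [this, hx, hy]
  · intro x _ hx A
    have h1 := hx ((fun z => x⁻¹ * z) '' A)
    have h2 : (fun z => x * z) '' ((fun z => x⁻¹ * z) '' A) = A := by
      rw [Set.image_image]
      simp
    rw [h2] at h1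
    exact h1.symm

end

end Pool.Agent.H883B
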