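import Pool.Agent.H870R4.Noz.Stmts

/-!
TaskCurve of project H870-NOZ (helper883).
-/

set_option autoImplicit false

open MeasureTheory Set
open scoped ContDiff

namespace H870N

/-- smooth inverse of a function with positive derivative -/
theorem inv_curve883 (f f' : ℝ → ℝ) (t y0 c : ℝ) (ht : 0 < t) (hf : ContDiff ℝ ∞ f)
    (hd : ∀ x, HasDerivAt f (f' x) x) (hc : 0 < c) (hpos : ∀ x ∈ Icc (-t) t, c ≤ f' x)
    (hl : f (-t) < -y0) (hr : y0 < f t) :
    ∃ θ : ℝ → ℝ, ContDiffOn ℝ ∞ θ (Ioo (-y0) y0) ∧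
      (∀ y ∈ Ioo (-y0) y0, θ y ∈ Ioo (-t) t ∧ f (θ y) = y) ∧
      ∀ y ∈ Ioo (-y0) y0, 0 < deriv θ y ∧ deriv θ y ≤ 1 / c := by
  have hmono : StrictMonoOn f (Icc (-t) t) := by
    apply strictMonoOn_of_deriv_pos (convex_Icc _ _) hf.continuous.continuousOn
    intro x hx
    rw [interior_Icc] at hx
    rw [(hd x).deriv]
    exact lt_of_lt_of_le hc (hpos x (Ioo_subset_Icc_self hx))
  have hex : ∀ y ∈ Ioo (-y0) y0, ∃ x, x ∈ Ioo (-t) t ∧ f x = y := by
    intro y hy
    have h1 : y ∈ Ioo (f (-t)) (f t) := ⟨by linarith [hy.1], by linarith [hy.2]⟩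
    obtain ⟨x, hx, hxy⟩ := intermediate_value_Ioo (by linarith : -t ≤ t)
      hf.continuous.continuousOn h1
    exact ⟨x, hx, hxy⟩
  choose! θ hθ using hex
  have hsm : ∀ y ∈ Ioo (-y0) y0, ContDiffAt ℝ ∞ θ y := by
    intro y hy
    obtain ⟨hθ1, hθ2⟩ := hθ y hy
    have hne : f' (θ y) ≠ 0 := (lt_of_lt_of_le hc (hpos _ (Ioo_subset_Icc_self hθ1))).ne'
    have hfd := (hd (θ y)).hasFDerivAt_equiv hne
    have hcd : ContDiffAt ℝ ∞ f (θ y) := hf.contDiffAt
    have hn : (∞ : WithTop ℕ∞) ≠ 0 := by simp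
    let e := hcd.toOpenPartialHomeomorph f hfd hn
    have hsymm : ContDiffAt ℝ ∞ e.symm (f (θ y)) := by
      apply e.contDiffAt_symm
        (ContDiffAt.image_mem_toOpenPartialHomeomorph_target hcd hfd hn)
      · have : e.symm (f (θ y)) = θ y :=
          e.left_inv (ContDiffAt.mem_toOpenPartialHomeomorph_source hcd hfd hn)
        rw [this]; exact hfd
      · have : e.symm (f (θ y)) = θ y :=
          e.left_inv (ContDiffAt.mem_toOpenPartialHomeomorph_source hcd hfd hn)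
        rw [this]; exact hcd
    rw [hθ2] at hsymm
    have hsy : e.symm y = θ y := by
      have : e.symm (f (θ y)) = θ y :=
          e.left_inv (ContDiffAt.mem_toOpenPartialHomeomorph_source hcd hfd hn)
      rwa [hθ2] at this
    have hty : y ∈ e.target := by
      have := ContDiffAt.image_mem_toOpenPartialHomeomorph_target hcd hfd hn
      rwa [hθ2] at this
    refine hsymm.congr_of_eventuallyEq ?_
    have h1 : ∀ᶠ z in nhds y, e.symm z ∈ Ioo (-t) t := by
      apply hsymm.continuousAt.eventually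
      rw [hsy]
      exact Ioo_mem_nhds hθ1.1 hθ1.2
    have h2 : ∀ᶠ z in nhds y, z ∈ e.target := e.open_target.mem_nhds hty
    have h3 : ∀ᶠ z in nhds y, z ∈ Ioo (-y0) y0 := Ioo_mem_nhds hy.1 hy.2
    filter_upwards [h1, h2, h3] with z hz1 hz2 hz3
    obtain ⟨h4, h5⟩ := hθ z hz3
    apply hmono.injOn (Ioo_subset_Icc_self h4) (Ioo_subset_Icc_self hz1)
    rw [h5]
    exact (e.right_inv hz2).symm
  refine ⟨θ, fun y hy => (hsm y hy).contDiffWithinAt, hθ, ?_⟩
  intro y hy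
  have hdiff : DifferentiableAt ℝ θ y := (hsm y hy).differentiableAt (by simp)
  have h1 : HasDerivAt (fun z => f (θ z)) (f' (θ y) * deriv θ y) y :=
    (hd (θ y)).comp y hdiff.hasDerivAt
  have h2 : HasDerivAt (fun z => f (θ z)) 1 y := by
    refine (hasDerivAt_id y).congr_of_eventuallyEq ?_
    filter_upwards [Ioo_mem_nhds hy.1 hy.2] with z hz
    exact (hθ z hz).2
  have h3 : f' (θ y) * deriv θ y = 1 := h1.unique h2
  have h4 : c ≤ f' (θ y) := hpos _ (Ioo_subset_Icc_self (hθ y hy).1)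
  have h5 : deriv θ y = 1 / f' (θ y) := by
    field_simp [(lt_of_lt_of_le hc h4).ne']
    linarith
  rw [h5]
  exact ⟨one_div_pos.2 (lt_of_lt_of_le hc h4), one_div_le_one_div_of_le hc h4⟩

theorem hasDerivAt_Bf_curve883 {s : ℂ} (hs : 0 < s.re) : HasDerivAt Bf (Bp s) s := by
  have hslit : s ∈ Complex.slitPlane := Or.inl hs
  have hs0 : s ≠ 0 := Complex.slitPlane_ne_zero hslit
  have h1 : HasDerivAt (fun s => Complex.exp (Complex.I * Complex.log s))
      (Complex.exp (Complex.I * Complex.log s) * (Complex.I * s⁻¹)) s :=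
    ((Complex.hasDerivAt_log hslit).const_mul Complex.I).cexp
  have h2 : Bp s = Complex.exp (Complex.I * Complex.log s) * (Complex.I * s⁻¹) := by
    unfold Bp
    have : (Complex.I - 1) * Complex.log s = Complex.I * Complex.log s + -Complex.log s := by ring
    rw [this, Complex.exp_add, Complex.exp_neg, Complex.exp_log hs0]
    ring
  rw [h2]
  exact h1

theorem norm_Bp_curve883 {s : ℂ} (hs : 1 / 35 < s.re) : ‖Bp s‖ ≤ 280 := by
  have hs' : 0 < s.re := lt_trans (by norm_num) hs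
  have hs0 : s ≠ 0 := by
    intro h
    rw [h] at hs'
    simp at hs'
  have hnorm : 1 / 35 < ‖s‖ := lt_of_lt_of_le hs ((le_abs_self _).trans (Complex.abs_re_le_norm s))
  have hnpos : 0 < ‖s‖ := norm_pos_iff.2 hs0
  unfold Bp
  rw [norm_mul, Complex.norm_I, one_mul, Complex.norm_exp]
  have h1 : ((Complex.I - 1) * Complex.log s).re = -Complex.arg s - Real.log ‖s‖ := by
    simp [Complex.mul_re, Complex.log_re, Complex.log_im]
    ring
  rw [h1, Real.exp_sub, Real.exp_log hnpos]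
  have h2 : |Complex.arg s| ≤ Real.pi / 2 := Complex.abs_arg_le_pi_div_two_iff.2 hs'.le
  have h3 : -Complex.arg s ≤ 2 := by
    have := Real.pi_lt_d2
    have := (abs_le.1 h2).1
    linarith
  have h4 : Real.exp (-Complex.arg s) ≤ 8 := by
    calc Real.exp (-Complex.arg s) ≤ Real.exp 2 := Real.exp_le_exp.2 h3
      _ = Real.exp 1 ^ 2 := by rw [← Real.exp_nat_mul]; norm_num
      _ ≤ 2.7182818286 ^ 2 := by
          gcongr
          exact Real.exp_one_lt_d9.le
      _ ≤ 8 := by norm_num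
  rw [div_le_iff₀ hnpos]
  linarith

theorem convex_crect_curve883 (L R h : ℝ) : Convex ℝ (crect L R h) := by
  intro z hz w hw a b ha hb hab
  obtain ⟨hz1, hz2, hz3⟩ := hz
  obtain ⟨hw1, hw2, hw3⟩ := hw
  rw [abs_lt] at hz3 hw3
  have h1 := (convex_Ioo L R) (⟨hz1, hz2⟩ : z.re ∈ Ioo L R) (⟨hw1, hw2⟩ : w.re ∈ Ioo L R)
    ha hb hab
  have h2 := (convex_Ioo (-h) h) (⟨hz3.1, hz3.2⟩ : z.im ∈ Ioo (-h) h)
    (⟨hw3.1, hw3.2⟩ : w.im ∈ Ioo (-h) h) ha hb hab
  have h3 : (a • z + b • w).re = a • z.re + b • w.re := by simp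
  have h4 : (a • z + b • w).im = a • z.im + b • w.im := by simp
  refine ⟨?_, ?_, ?_⟩
  · rw [h3]; exact h1.1
  · rw [h3]; exact h1.2
  · rw [h4, abs_lt]; exact h2

theorem inj_curve883 {δ : ℝ} (hδ : 0 < δ) (hδ' : δ ≤ 1 / 10000) {s1 s2 : ℂ}
    (h1 : s1 ∈ crect (1 / 35) 560 (1 / 150)) (h2 : s2 ∈ crect (1 / 35) 560 (1 / 150))
    (h : s1 + δ * Bf s1 = s2 + δ * Bf s2) : s1 = s2 := by
  have h3 : ‖Bf s2 - Bf s1‖ ≤ 280 * ‖s2 - s1‖ := by
    apply Convex.norm_image_sub_le_of_norm_hasDerivWithin_le (f := Bf) (f' := Bp)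
      (s := crect (1 / 35) 560 (1 / 150)) ?_ ?_ (convex_crect_curve883 _ _ _) h1 h2
    · intro x hx
      exact (hasDerivAt_Bf_curve883 (lt_trans (by norm_num) hx.1)).hasDerivWithinAt
    · intro x hx
      exact norm_Bp_curve883 hx.1
  have h4 : s2 - s1 = -(δ * (Bf s2 - Bf s1)) := by linear_combination -h
  have h5 : ‖s2 - s1‖ ≤ δ * (280 * ‖s2 - s1‖) := by
    calc ‖s2 - s1‖ = δ * ‖Bf s2 - Bf s1‖ := by
          rw [h4, norm_neg, norm_mul, Complex.norm_real, Real.norm_of_nonneg hδ.le]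
      _ ≤ δ * (280 * ‖s2 - s1‖) := mul_le_mul_of_nonneg_left h3 hδ.le
  have h6 : 0 ≤ ‖s2 - s1‖ := norm_nonneg _
  have h7 : ‖s2 - s1‖ = 0 := by nlinarith
  exact (sub_eq_zero.1 (norm_eq_zero.1 h7)).symm

theorem mono_curve883 {δ : ℝ} {σ : ℂ → ℂ} (hδ : 0 < δ) (hδ' : δ ≤ 1 / 10000)
    (hσ : IsInv δ σ) {y : ℝ} (hy : |y| < 1 / 180) :
    StrictMonoOn (fun x : ℝ => lam (σ ⟨x, y⟩)) (Ioo (1 / 32) 550) := by
  have hlam : ∀ s : ℂ, lam s = ((1 + Complex.I) * Complex.log s).re := by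
    intro s
    unfold lam
    simp [Complex.mul_re, Complex.log_re, Complex.log_im]
  have hpt : ∀ x : ℝ, (⟨x, y⟩ : ℂ) = (x : ℂ) + y * Complex.I := by
    intro x
    apply Complex.ext <;> simp
  have hder : ∀ x ∈ Ioo (1 / 32 : ℝ) 550, ∃ d : ℝ, 0 < d ∧
      HasDerivAt (fun x : ℝ => lam (σ ⟨x, y⟩)) d x := by
    intro x hx
    have hw : (⟨x, y⟩ : ℂ) ∈ crect (1 / 32) 550 (1 / 180) := ⟨hx.1, hx.2, hy⟩
    obtain ⟨hs, -, -, hne, hd⟩ := hσ _ hw
    set s := σ ⟨x, y⟩ with hsdef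
    set u : ℂ := δ * Bp s with hu
    have hun : ‖u‖ ≤ 1 / 30 := by
      rw [hu, norm_mul, Complex.norm_real, Real.norm_of_nonneg hδ.le]
      have := norm_Bp_curve883 hs.1
      nlinarith [norm_nonneg (Bp s)]
    have hsre : 1 / 35 < s.re := hs.1
    have hsim : |s.im| < 1 / 150 := hs.2.2
    have hslit : s ∈ Complex.slitPlane := Or.inl (lt_trans (by norm_num) hsre)
    have hs0 : s ≠ 0 := Complex.slitPlane_ne_zero hslit
    have he : HasDerivAt (fun ζ : ℂ => (1 + Complex.I) * Complex.log (σ (ζ + y * Complex.I)))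
        ((1 + Complex.I) * (1 / (1 + u) / s)) (x : ℂ) := by
      have h1 : HasDerivAt (fun ζ : ℂ => ζ + y * Complex.I) 1 (x : ℂ) :=
        (hasDerivAt_id (x : ℂ)).add_const _
      have h2 : HasDerivAt (fun ζ : ℂ => σ (ζ + y * Complex.I)) (1 / (1 + u) * 1) (x : ℂ) := by
        apply HasDerivAt.comp (x : ℂ) (h₂ := σ) (h := fun ζ : ℂ => ζ + y * Complex.I) ?_ h1
        rw [← hpt x]
        exact hd
      rw [mul_one] at h2
      have h3 : σ ((x : ℂ) + y * Complex.I) = s := by rw [hsdef, hpt x]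
      have h4 := (h2.clog (by rw [h3]; exact hslit)).const_mul (1 + Complex.I)
      rw [h3] at h4
      exact h4
    have hr := he.real_of_complex
    refine ⟨((1 + Complex.I) * (1 / (1 + u) / s)).re, ?_, ?_⟩
    · have hz0 : (1 + u) * s ≠ 0 := mul_ne_zero hne hs0
      have h1 : (1 + Complex.I) * (1 / (1 + u) / s) = (1 + Complex.I) / ((1 + u) * s) := by
        field_simp
      rw [h1, Complex.div_re]
      have hn : 0 < Complex.normSq ((1 + u) * s) := Complex.normSq_pos.2 hz0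
      have h2 : (1 + Complex.I).re = 1 := by simp
      have h3 : (1 + Complex.I).im = 1 := by simp
      rw [h2, h3, one_mul, one_mul, ← add_div]
      apply div_pos ?_ hn
      have h4 : ((1 + u) * s).re = s.re + (u * s).re := by
        rw [add_mul, one_mul, Complex.add_re]
      have h5 : ((1 + u) * s).im = s.im + (u * s).im := by
        rw [add_mul, one_mul, Complex.add_im]
      rw [h4, h5]
      have h6 : ‖u * s‖ ≤ 1 / 30 * (s.re + |s.im|) := by
        rw [norm_mul]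
        have h7 : ‖s‖ ≤ |s.re| + |s.im| := Complex.norm_le_abs_re_add_abs_im s
        rw [abs_of_pos (lt_trans (by norm_num) hsre)] at h7
        have h8 : 0 ≤ ‖s‖ := norm_nonneg s
        calc ‖u‖ * ‖s‖ ≤ 1 / 30 * ‖s‖ := mul_le_mul_of_nonneg_right hun h8
          _ ≤ 1 / 30 * (s.re + |s.im|) := mul_le_mul_of_nonneg_left h7 (by norm_num)
      have h9 := Complex.abs_re_le_norm (u * s)
      have h10 := Complex.abs_im_le_norm (u * s)
      have h11 := abs_le.1 (h9.trans h6)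
      have h12 := abs_le.1 (h10.trans h6)
      have h13 := abs_lt.1 hsim
      have h14 : -|s.im| ≤ s.im := neg_abs_le _
      linarith [h11.1, h12.1]
    · refine hr.congr_of_eventuallyEq ?_
      filter_upwards with z
      rw [hlam, hpt z]
  apply strictMonoOn_of_deriv_pos (convex_Ioo _ _)
  · intro x hx
    obtain ⟨d, -, hd⟩ := hder x hx
    exact hd.continuousAt.continuousWithinAt
  · intro x hx
    rw [interior_Ioo] at hx
    obtain ⟨d, hd, hd'⟩ := hder x hx
    rw [hd'.deriv]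
    exact hd

/-- the construction, for a general level -/
theorem main_curve883 {δ : ℝ} {σ : ℂ → ℂ} (hδ : 0 < δ) (hδ' : δ ≤ 1 / 10000)
    (hσ : IsInv δ σ) (κ t m : ℝ) (ht : 0 < t) (ht' : t ≤ 1 / 4) (_hm : 0 < m)
    (hE : ∀ θ ∈ Icc (-t) t, m ≤ Real.exp (κ + θ) ∧ Real.exp (κ + θ) ≤ 539)
    (n1 : 1 / 180 < m * (t - t ^ 3 / 4) - 2 * δ)
    (n2 : 1 / 29 < m * (1 - t ^ 2 / 2) - 2 * δ)
    (n3 : 1 / 100 ≤ m * (1 - t ^ 2 / 2 - t) - 4 * δ) :
    ∃ q θ : ℝ → ℝ, IsCurve κ σ q θ := by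
  set f : ℝ → ℝ := fun θ => Real.exp (κ + θ) * Real.sin θ + δ * (Real.exp (-θ) * Real.sin (κ + θ))
    with hf
  set g : ℝ → ℝ := fun θ => Real.exp (κ + θ) * Real.cos θ + δ * (Real.exp (-θ) * Real.cos (κ + θ))
    with hg
  set f' : ℝ → ℝ := fun θ => Real.exp (κ + θ) * (Real.sin θ + Real.cos θ) +
    δ * (Real.exp (-θ) * (Real.cos (κ + θ) - Real.sin (κ + θ))) with hf'
  have hfs : ContDiff ℝ ∞ f := by rw [hf]; fun_prop
  have hgs : ContDiff ℝ ∞ g := by rw [hg]; fun_prop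
  have hfd : ∀ x, HasDerivAt f (f' x) x := by
    intro x
    have h1 : HasDerivAt (fun θ : ℝ => κ + θ) 1 x := (hasDerivAt_id x).const_add κ
    have h2 : HasDerivAt (fun θ : ℝ => -θ) (-1) x := (hasDerivAt_id x).neg
    have h3 := (h1.exp.mul (Real.hasDerivAt_sin x)).add ((h2.exp.mul h1.sin).const_mul δ)
    refine h3.congr_deriv ?_
    simp only [hf']
    ring
  have hsmall : ∀ θ ∈ Icc (-t) t, Real.exp (-θ) ≤ 2 := by
    intro θ hθ
    have h1 : -θ ≤ 1 / 4 := by linarith [hθ.1]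
    have h2 : Real.exp (-θ) ≤ Real.exp (1 / 4) := Real.exp_le_exp.2 h1
    have h3 : Real.exp (1 / 4) * Real.exp (-(1 / 4)) = 1 := by
      rw [← Real.exp_add]; norm_num
    have h4 : 3 / 4 ≤ Real.exp (-(1 / 4)) := by
      have := Real.add_one_le_exp (-(1 / 4) : ℝ)
      linarith
    have h5 : 0 < Real.exp (1 / 4) := Real.exp_pos _
    nlinarith
  have herr : ∀ θ ∈ Icc (-t) t, ∀ c : ℝ, |c| ≤ 2 → |δ * (Real.exp (-θ) * c)| ≤ 4 * δ := by
    intro θ hθ c hc
    rw [abs_mul, abs_mul, abs_of_pos hδ, abs_of_pos (Real.exp_pos _)]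
    have h1 := hsmall θ hθ
    have h2 : Real.exp (-θ) * |c| ≤ 2 * 2 :=
      mul_le_mul h1 hc (abs_nonneg _) (by norm_num)
    nlinarith
  have herr1 : ∀ θ ∈ Icc (-t) t, ∀ c : ℝ, |c| ≤ 1 → |δ * (Real.exp (-θ) * c)| ≤ 2 * δ := by
    intro θ hθ c hc
    rw [abs_mul, abs_mul, abs_of_pos hδ, abs_of_pos (Real.exp_pos _)]
    have h1 := hsmall θ hθ
    have h2 : Real.exp (-θ) * |c| ≤ 2 * 1 :=
      mul_le_mul h1 hc (abs_nonneg _) (by norm_num)
    nlinarith
  have hcos : ∀ θ ∈ Icc (-t) t, 1 - t ^ 2 / 2 ≤ Real.cos θ := by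
    intro θ hθ
    have h1 := Real.one_sub_sq_div_two_le_cos (x := θ)
    have h2 : θ ^ 2 ≤ t ^ 2 := by
      apply sq_le_sq'
      · exact hθ.1
      · exact hθ.2
    linarith
  have hsin : ∀ θ ∈ Icc (-t) t, |Real.sin θ| ≤ t := by
    intro θ hθ
    exact (Real.abs_sin_le_abs).trans (abs_le.2 hθ)
  have hpos : ∀ x ∈ Icc (-t) t, 1 / 100 ≤ f' x := by
    intro x hx
    have h1 := hcos x hx
    have h2 := (abs_le.1 (hsin x hx)).1
    have h3 := (hE x hx).1
    have h4 : |Real.cos (κ + x) - Real.sin (κ + x)| ≤ 2 := by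
      have h5 := Real.abs_cos_le_one (κ + x)
      have h6 := Real.abs_sin_le_one (κ + x)
      calc |Real.cos (κ + x) - Real.sin (κ + x)| ≤ |Real.cos (κ + x)| + |Real.sin (κ + x)| :=
            abs_sub _ _
        _ ≤ 2 := by linarith
    have h7 := (abs_le.1 (herr x hx _ h4)).1
    have h8 : m * (1 - t ^ 2 / 2 - t) ≤ Real.exp (κ + x) * (Real.sin x + Real.cos x) := by
      apply mul_le_mul h3 (by linarith) ?_ (Real.exp_pos _).le
      nlinarith
    simp only [hf']
    linarith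
  have hsint : t - t ^ 3 / 4 < Real.sin t := by
    have h1 := Real.sin_gt_sub_cube ht
    have h2 : 0 < t ^ 3 := by positivity
    linarith
  have htt : 0 < t - t ^ 3 / 4 := by
    have : t ^ 3 ≤ t := by
      have : t ^ 3 = t * (t * t) := by ring
      rw [this]
      nlinarith
    linarith
  have hr : 1 / 180 < f t := by
    have hmem : t ∈ Icc (-t) t := ⟨by linarith, le_refl _⟩
    have h1 := (hE t hmem).1
    have h2 := (abs_le.1 (herr1 t hmem _ (Real.abs_sin_le_one (κ + t)))).1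
    have h3 : m * (t - t ^ 3 / 4) ≤ Real.exp (κ + t) * Real.sin t :=
      mul_le_mul h1 hsint.le htt.le (Real.exp_pos _).le
    simp only [hf]
    linarith
  have hl : f (-t) < -(1 / 180) := by
    have hmem : -t ∈ Icc (-t) t := ⟨le_refl _, by linarith⟩
    have h1 := (hE (-t) hmem).1
    have h2 := (abs_le.1 (herr1 (-t) hmem _ (Real.abs_sin_le_one (κ + -t)))).2
    have h3 : m * (t - t ^ 3 / 4) ≤ Real.exp (κ + -t) * Real.sin t :=
      mul_le_mul h1 hsint.le htt.le (Real.exp_pos _).le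
    simp only [hf]
    rw [Real.sin_neg]
    linarith
  obtain ⟨θ, hθs, hθ, hθd⟩ := inv_curve883 f f' t (1 / 180) (1 / 100) ht hfs hfd (by norm_num) hpos
    hl hr
  -- the points of the curve
  have hg1 : ∀ x ∈ Icc (-t) t, 1 / 29 < g x ∧ g x < 540 := by
    intro x hx
    have h1 := hcos x hx
    have h2 := Real.cos_le_one x
    have h3 := hE x hx
    have h4 := abs_le.1 (herr1 x hx _ (Real.abs_cos_le_one (κ + x)))
    have h5 : m * (1 - t ^ 2 / 2) ≤ Real.exp (κ + x) * Real.cos x := by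
      apply mul_le_mul h3.1 h1 ?_ (Real.exp_pos _).le
      nlinarith
    have h6 : Real.exp (κ + x) * Real.cos x ≤ 539 * 1 := by
      have h7 : 0 ≤ Real.cos x := by nlinarith
      exact mul_le_mul h3.2 h2 h7 (by norm_num)
    simp only [hg]
    constructor
    · linarith [h4.1]
    · linarith [h4.2]
  have hpt : ∀ y ∈ Ioo (-(1 / 180) : ℝ) (1 / 180), σ ⟨g (θ y), y⟩ =
      Complex.exp (κ + (1 + Complex.I) * θ y) := by
    intro y hy
    obtain ⟨hθ1, hθ2⟩ := hθ y hy
    have hθ3 := Ioo_subset_Icc_self hθ1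
    have hg2 := hg1 _ hθ3
    have hyabs : |y| < 1 / 180 := abs_lt.2 hy
    have hw : (⟨g (θ y), y⟩ : ℂ) ∈ crect (1 / 32) 550 (1 / 180) :=
      ⟨by show 1 / 32 < g (θ y); linarith [hg2.1], by show g (θ y) < 550; linarith [hg2.2], hyabs⟩
    obtain ⟨hs, -, hsw, -, -⟩ := hσ _ hw
    set x := θ y with hx
    set s : ℂ := Complex.exp (κ + (1 + Complex.I) * x) with hsdef
    have hsre : s.re = Real.exp (κ + x) * Real.cos x := by
      rw [hsdef, Complex.exp_re]
      simp
    have hsim : s.im = Real.exp (κ + x) * Real.sin x := by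
      rw [hsdef, Complex.exp_im]
      simp
    have hlog : Complex.log s = κ + (1 + Complex.I) * x := by
      rw [hsdef]
      have hpi := Real.pi_gt_three
      apply Complex.log_exp
      · simp
        linarith [hθ3.1]
      · simp
        linarith [hθ3.2]
    have hB : Bf s = ⟨Real.exp (-x) * Real.cos (κ + x), Real.exp (-x) * Real.sin (κ + x)⟩ := by
      unfold Bf
      rw [hlog]
      have h1 : Complex.I * (κ + (1 + Complex.I) * x) = (⟨-x, κ + x⟩ : ℂ) := by
        apply Complex.ext <;> simp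
      rw [h1]
      apply Complex.ext
      · rw [Complex.exp_re]
      · rw [Complex.exp_im]
    have hsum : s + δ * Bf s = ⟨g x, y⟩ := by
      rw [hB]
      apply Complex.ext
      · simp only [Complex.add_re, Complex.mul_re, Complex.ofReal_re, Complex.ofReal_im, hsre, hg]
        ring
      · simp only [Complex.add_im, Complex.mul_im, Complex.ofReal_re, Complex.ofReal_im, hsim]
        rw [← hθ2]
        simp only [hf]
        ring
    apply inj_curve883 hδ hδ' hs ?_ (hsw.trans hsum.symm)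
    have h1 := hcos x hθ3
    have h2 := Real.cos_le_one x
    have h3 := hE x hθ3
    have h5 : m * (1 - t ^ 2 / 2) ≤ Real.exp (κ + x) * Real.cos x := by
      apply mul_le_mul h3.1 h1 ?_ (Real.exp_pos _).le
      nlinarith
    have h6 : Real.exp (κ + x) * Real.cos x ≤ 539 * 1 := by
      have h7 : 0 ≤ Real.cos x := by nlinarith
      exact mul_le_mul h3.2 h2 h7 (by norm_num)
    refine ⟨?_, ?_, ?_⟩
    · rw [hsre]; linarith
    · rw [hsre]; linarith
    · have h8 : s.im = y - δ * (Real.exp (-x) * Real.sin (κ + x)) := by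
        rw [hsim, ← hθ2]
        simp only [hf]
        ring
      rw [h8]
      have h9 := herr1 x hθ3 _ (Real.abs_sin_le_one (κ + x))
      calc |y - δ * (Real.exp (-x) * Real.sin (κ + x))|
          ≤ |y| + |δ * (Real.exp (-x) * Real.sin (κ + x))| := abs_sub _ _
        _ < 1 / 150 := by linarith
  refine ⟨fun y => g (θ y), θ, ?_, hθs, ?_, hpt, ?_, ?_, ?_⟩
  · exact hgs.comp_contDiffOn hθs
  · intro y hy
    have hg2 := hg1 _ (Ioo_subset_Icc_self (hθ y hy).1)
    exact ⟨hg2.1, hg2.2, abs_lt.2 hy⟩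
  · intro y hy
    have h1 := (hθ y hy).1
    rw [abs_le]
    exact ⟨by linarith [h1.1], by linarith [h1.2]⟩
  · intro y hy
    have h1 := hθd y hy
    exact ⟨h1.1, by norm_num at h1 ⊢; exact h1.2⟩
  · intro x y hxy
    obtain ⟨hx1, hx2, hy⟩ := hxy
    simp only at hx1 hx2 hy
    have hy' : y ∈ Ioo (-(1 / 180) : ℝ) (1 / 180) := abs_lt.1 hy
    have hmono := mono_curve883 hδ hδ' hσ hy
    have hg2 := hg1 _ (Ioo_subset_Icc_self (hθ y hy').1)
    have hxm : x ∈ Ioo (1 / 32 : ℝ) 550 := ⟨hx1, hx2⟩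
    have hqm : g (θ y) ∈ Ioo (1 / 32 : ℝ) 550 := ⟨by linarith [hg2.1], by linarith [hg2.2]⟩
    have hval : lam (σ ⟨g (θ y), y⟩) = κ := by
      rw [hpt y hy']
      have hlog : Complex.log (Complex.exp (κ + (1 + Complex.I) * θ y)) =
          κ + (1 + Complex.I) * θ y := by
        have hpi := Real.pi_gt_three
        have h1 := (hθ y hy').1
        apply Complex.log_exp
        · simp
          linarith [h1.1]
        · simp
          linarith [h1.2]
      unfold lam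
      rw [← Complex.log_re, ← Complex.log_im, hlog]
      simp
    constructor
    · rw [← hval]
      exact hmono.lt_iff_lt hxm hqm
    · constructor
      · intro h
        apply hmono.injOn hxm hqm
        show lam (σ ⟨x, y⟩) = lam (σ ⟨g (θ y), y⟩)
        rw [hval]; exact h
      · intro h
        subst h
        exact hval

theorem num1_curve883 : ∀ θ ∈ Icc (-(4 / 25) : ℝ) (4 / 25),
    (365 / 10000 : ℝ) ≤ Real.exp (-Real.pi + θ) ∧ Real.exp (-Real.pi + θ) ≤ 539 := by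
  intro θ hθ
  have hpi := Real.pi_lt_d4
  have hpi' := Real.pi_gt_three
  constructor
  · have h1 : -(3.3016 : ℝ) ≤ -Real.pi + θ := by linarith [hθ.1]
    have h2 : Real.exp (-(3.3016 : ℝ)) = Real.exp (-1) ^ 3 * Real.exp (-0.0377) ^ 8 := by
      rw [← Real.exp_nat_mul, ← Real.exp_nat_mul, ← Real.exp_add]
      norm_num
    have h3 : (0.36787944116 : ℝ) ≤ Real.exp (-1) := Real.exp_neg_one_gt_d9.le
    have h4 : (0.9623 : ℝ) ≤ Real.exp (-0.0377) := by
      have := Real.add_one_le_exp (-0.0377 : ℝ)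
      linarith
    calc (365 / 10000 : ℝ) ≤ (0.36787944116 : ℝ) ^ 3 * (0.9623 : ℝ) ^ 8 := by norm_num
      _ ≤ Real.exp (-1) ^ 3 * Real.exp (-0.0377) ^ 8 := by gcongr
      _ = Real.exp (-(3.3016 : ℝ)) := h2.symm
      _ ≤ Real.exp (-Real.pi + θ) := Real.exp_le_exp.2 h1
  · have h1 : -Real.pi + θ ≤ 0 := by linarith [hθ.2]
    calc Real.exp (-Real.pi + θ) ≤ Real.exp 0 := Real.exp_le_exp.2 h1
      _ ≤ 539 := by rw [Real.exp_zero]; norm_num

theorem num2_curve883 : ∀ θ ∈ Icc (-(1 / 1000) : ℝ) (1 / 1000),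
    (530 : ℝ) ≤ Real.exp (2 * Real.pi + θ) ∧ Real.exp (2 * Real.pi + θ) ≤ 539 := by
  intro θ hθ
  have hpi := Real.pi_lt_d4
  have hpi' := Real.pi_gt_d4
  constructor
  · have h1 : (6.2816 : ℝ) ≤ 2 * Real.pi + θ := by linarith [hθ.1]
    have h2 : Real.exp (6.2816 : ℝ) = Real.exp 1 ^ 6 * Real.exp (0.0176) ^ 16 := by
      rw [← Real.exp_nat_mul, ← Real.exp_nat_mul, ← Real.exp_add]
      norm_num
    have h3 : (2.7182818283 : ℝ) ≤ Real.exp 1 := Real.exp_one_gt_d9.le
    have h4 : (1.0176 : ℝ) ≤ Real.exp (0.0176) := by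
      have := Real.add_one_le_exp (0.0176 : ℝ)
      linarith
    calc (530 : ℝ) ≤ (2.7182818283 : ℝ) ^ 6 * (1.0176 : ℝ) ^ 16 := by norm_num
      _ ≤ Real.exp 1 ^ 6 * Real.exp (0.0176) ^ 16 := by gcongr
      _ = Real.exp (6.2816 : ℝ) := h2.symm
      _ ≤ Real.exp (2 * Real.pi + θ) := Real.exp_le_exp.2 h1
  · have h1 : 2 * Real.pi + θ ≤ (6.2842 : ℝ) := by linarith [hθ.2]
    have h2 : Real.exp (6.2842 : ℝ) * Real.exp (-0.0177625) ^ 16 = Real.exp 1 ^ 6 := by
      rw [← Real.exp_nat_mul, ← Real.exp_nat_mul, ← Real.exp_add]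
      norm_num
    have h3 : Real.exp 1 ≤ (2.7182818286 : ℝ) := Real.exp_one_lt_d9.le
    have h4 : (0.9822375 : ℝ) ≤ Real.exp (-0.0177625) := by
      have := Real.add_one_le_exp (-0.0177625 : ℝ)
      linarith
    have h5 : Real.exp (6.2842 : ℝ) * (0.9822375 : ℝ) ^ 16 ≤ (2.7182818286 : ℝ) ^ 6 := by
      calc Real.exp (6.2842 : ℝ) * (0.9822375 : ℝ) ^ 16
          ≤ Real.exp (6.2842 : ℝ) * Real.exp (-0.0177625) ^ 16 := by gcongr
        _ = Real.exp 1 ^ 6 := h2
        _ ≤ (2.7182818286 : ℝ) ^ 6 := by gcongr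
    have h6 : Real.exp (6.2842 : ℝ) ≤ 539 := by
      by_contra hcon
      push Not at hcon
      have h7 : (539 : ℝ) * (0.9822375 : ℝ) ^ 16 ≤ Real.exp (6.2842 : ℝ) * (0.9822375 : ℝ) ^ 16 := by
        gcongr
      have h8 : (2.7182818286 : ℝ) ^ 6 < (539 : ℝ) * (0.9822375 : ℝ) ^ 16 := by norm_num
      linarith
    exact (Real.exp_le_exp.2 h1).trans h6

theorem taskCurve : TaskCurve := by
  refine ⟨1 / 10000, by norm_num, ?_⟩
  intro δ σ hδ hδ' hσ κ hκ
  rcases hκ with rfl | rfl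
  · apply main_curve883 hδ hδ' hσ (-Real.pi) (4 / 25) (365 / 10000) (by norm_num) (by norm_num)
      (by norm_num) num1_curve883
    · linarith
    · linarith
    · linarith
  · apply main_curve883 hδ hδ' hσ (2 * Real.pi) (1 / 1000) 530 (by norm_num) (by norm_num)
      (by norm_num) num2_curve883
    · linarith
    · linarith
    · linarith

end H870N
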