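import Mathlib

/-!
# Property (b): partitions with large packing indices (MP_d97def_al)

Definitions and the list of tasks.
-/

namespace Pool.Agent.H883B

universe u

/-- `G` is amenable: there is a left-invariant finitely additive probability measure on all
subsets of `G`. -/
def IsAmenable (G : Type u) [Group G] : Prop :=
  ∃ m : Set G → ℝ, (∀ A, 0 ≤ m A) ∧ m Set.univ = 1 ∧
    (∀ A B, Disjoint A B → m (A ∪ B) = m A + m B) ∧
    ∀ (g : G) (A : Set G), m ((fun x => g * x) '' A) = m A

/-- The translates `x A`, `x ∈ E`, are pairwise disjoint. -/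
def Packs {G : Type u} [Group G] (E A : Set G) : Prop :=
  ∀ x ∈ E, ∀ y ∈ E, x ≠ y → Disjoint ((fun a => x * a) '' A) ((fun a => y * a) '' A)

/-- The packing index `pack(A) = sup {|E| : the translates xA, x ∈ E, are pairwise disjoint}`. -/
noncomputable def pack {G : Type u} [Group G] (A : Set G) : ℕ∞ :=
  ⨆ E : {E : Set G // Packs E A}, (E : Set G).encard

/-- Property (b): every partition into `n` cells has a cell with packing index at most `n`. -/
def PropertyB (G : Type u) [Group G] : Prop :=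
  ∀ n : ℕ, 1 ≤ n → ∀ c : G → Fin n, ∃ i : Fin n, pack {x | c x = i} ≤ n

/-- A subgroup is locally finite: its finite subsets generate finite subgroups. -/
def LocFin {G : Type u} [Group G] (H : Subgroup G) : Prop :=
  ∀ s : Finset G, (∀ x ∈ s, x ∈ H) → Finite (Subgroup.closure (s : Set G))

/-- There are `k` pairwise disjoint left translates of `A`. -/
def PackGe {G : Type u} [Group G] (A : Set G) (k : ℕ) : Prop :=
  ∃ E : Finset G, E.card = k ∧ Packs (E : Set G) A

open Classical in
/-- The number of `y ∈ Y` with `g y ∉ Y`. -/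
noncomputable def bdry {G : Type u} [Group G] (g : G) (Y : Finset G) : ℕ :=
  (Y.filter (fun y => g * y ∉ Y)).card

open Classical in
/-- The number of elements of `Y` in the block `w` of the block map `b`. -/
noncomputable def cnt {G : Type u} (b : G → G) (Y : Finset G) (w : G) : ℕ :=
  (Y.filter (fun y => b y = w)).card

open Classical in
/-- There is a partition of `G` into blocks of the same size `L ≥ 1/ε` (the fibres of `b`) which are
nearly closed under left multiplication by `g`, and such that every set `B` with at most `c` elements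
in each block splits into at most `(c/L + ε) k` sets with packing index at least `k`. -/
def GoodFor {G : Type u} [Group G] (g : G) (ε : ℝ) (k : ℕ) : Prop :=
  ∃ (L : ℕ) (b : G → G), 0 < L ∧ 1 ≤ ε * L ∧
    (∀ x : G, {y : G | b y = b x}.ncard = L) ∧
    (∀ Y : Finset G, (bdry g Y : ℝ) ≤
      2 * ∑ w ∈ Y.image b, min (cnt b Y w : ℝ) (L - cnt b Y w) + ε * Y.card) ∧
    (∀ (c : ℕ) (B : Set G), c ≤ L → (∀ x : G, {y : G | y ∈ B ∧ b y = b x}.ncard ≤ c) →
      ∃ (n : ℕ) (col : G → ℕ), (n : ℝ) ≤ ((c : ℝ) / L + ε) * k ∧ (∀ x ∈ B, col x < n) ∧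
        ∀ j < n, PackGe {x : G | x ∈ B ∧ col x = j} k)

/-- T1a. Colouring a set of integers. -/
def TaskZ : Prop :=
  ∀ (S : Set ℤ) (k n : ℕ), 1 ≤ k →
    (∀ a : ℤ, {z : ℤ | z ∈ S ∧ a ≤ z ∧ z < a + k}.ncard ≤ n) →
    ∃ col : ℤ → ℕ, (∀ z ∈ S, col z < n) ∧
      ∀ x ∈ S, ∀ y ∈ S, x < y → col x = col y → x + k ≤ y

/-- T1b. Elements of infinite order are good, for all large `k`. -/
def TaskInf : Prop :=
  TaskZ → ∀ (G : Type u) [Group G] (g : G), ¬ IsOfFinOrder g → ∀ ε : ℝ, 0 < ε →
    ∃ K : ℕ, ∀ k : ℕ, K ≤ k → GoodFor g ε k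

/-- T2. Elements of a large finite subgroup are good. -/
def TaskFin : Prop :=
  ∀ (G : Type u) [Group G] (F : Subgroup G) (_ : Finite F) (g : G), g ∈ F → ∀ ε : ℝ, 0 < ε →
    1 ≤ ε * Nat.card F → GoodFor g ε (Nat.card F)

/-- T3. The counting argument and Hall's theorem. -/
def TaskCore : Prop :=
  ∀ (G : Type u) [Group G] (ι : Type) [Fintype ι] (g : ι → G) (δ : ℝ), 0 < δ →
    2 ≤ Fintype.card ι → (∀ Y : Finset G, δ * Y.card ≤ ∑ i, (bdry (g i) Y : ℝ)) →
    ∃ ε : ℝ, 0 < ε ∧ ∀ k : ℕ, 1 ≤ k → (∀ i, GoodFor (g i) ε k) →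
      ∃ n : ℕ, 1 ≤ n ∧ n < k ∧ ∃ c : G → Fin n, ∀ i, PackGe {x | c x = i} k

/-- T4a. Almost invariant finite sets give an invariant mean. -/
def TaskMean : Prop :=
  ∀ (G : Type u) [Group G] (S : Set G),
    (∀ (r : ℕ) (g : Fin r → G), (∀ i, g i ∈ S) → ∀ δ : ℝ, 0 < δ →
      ∃ Y : Finset G, ∑ i, (bdry (g i) Y : ℝ) < δ * Y.card) →
    ∃ m : Set G → ℝ, (∀ A, 0 ≤ m A) ∧ m Set.univ = 1 ∧
      (∀ A B, Disjoint A B → m (A ∪ B) = m A + m B) ∧
      ∀ g ∈ S, ∀ A : Set G, m ((fun x => g * x) '' A) = m A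

/-- T4b. A mean on `G` invariant under `S` shows that the subgroup generated by `S` is amenable. -/
def TaskRestrict : Prop :=
  ∀ (G : Type u) [Group G] (S : Set G) (m : Set G → ℝ), (∀ A, 0 ≤ m A) → m Set.univ = 1 →
      (∀ A B, Disjoint A B → m (A ∪ B) = m A + m B) →
      (∀ g ∈ S, ∀ A : Set G, m ((fun x => g * x) '' A) = m A) →
    IsAmenable (Subgroup.closure S)

/-- T5. Extensions of amenable groups by amenable groups are amenable. -/
def TaskExt : Prop :=
  ∀ (G : Type u) [Group G] (K : Subgroup G) [K.Normal], IsAmenable K → IsAmenable (G ⧸ K) →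
    IsAmenable G

/-- T6. Quotients of amenable groups are amenable. -/
def TaskQuot : Prop :=
  ∀ (G Q : Type u) [Group G] [Group Q] (f : G →* Q), Function.Surjective f → IsAmenable G →
    IsAmenable Q

/-- T7. Directed unions of amenable subgroups are amenable. -/
def TaskDirected : Prop :=
  TaskRestrict.{u} → ∀ (G : Type u) [Group G] (𝒩 : Set (Subgroup G)), 𝒩.Nonempty →
    DirectedOn (· ≤ ·) 𝒩 → (∀ N ∈ 𝒩, IsAmenable N) → IsAmenable (sSup 𝒩 : Subgroup G)

/-- T8. The amenable radical exists. -/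
def TaskRadical : Prop :=
  TaskExt.{u} → TaskQuot.{u} → TaskDirected.{u} → TaskRestrict.{u} →
  ∀ (G : Type u) [Group G], ∃ R : Subgroup G, R.Normal ∧ IsAmenable R ∧
    ∀ N : Subgroup G, N.Normal → IsAmenable N → N ≤ R

/-- T9. The amenable radical of the quotient by the amenable radical is trivial. -/
def TaskTop : Prop :=
  TaskExt.{u} → TaskQuot.{u} →
  ∀ (G : Type u) [Group G] (R : Subgroup G) [R.Normal], IsAmenable R →
    (∀ N : Subgroup G, N.Normal → IsAmenable N → N ≤ R) →
    ∀ N : Subgroup (G ⧸ R), N.Normal → IsAmenable N → N = ⊥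

/-- T10. Property (b) passes to quotients. -/
def TaskBQuot : Prop :=
  ∀ (G Q : Type u) [Group G] [Group Q] (f : G →* Q), Function.Surjective f → PropertyB G →
    PropertyB Q

/-- T11. Every infinite 2-group has an infinite locally finite subgroup. -/
def TaskTwo : Prop :=
  ∀ (G : Type u) [Group G], Infinite G → (∀ g : G, ∃ n : ℕ, g ^ 2 ^ n = 1) →
    ∃ H : Subgroup G, LocFin H ∧ Infinite H

end Pool.Agent.H883B
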