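import Mathlib
import Pool.Agent.H883B.Stmts

/-!
# T6 and T10: quotients of amenable groups are amenable; property (b) passes to quotients
-/

namespace Pool.Agent.H883B

universe u

theorem image_preimage_quot {G Q : Type u} [Group G] [Group Q] (f : G →* Q) (g : G) (A : Set Q) :
    (fun x => g * x) '' (f ⁻¹' A) = f ⁻¹' ((fun x => f g * x) '' A) := by
  ext z
  constructor
  · rintro ⟨x, hx, rfl⟩
    exact ⟨f x, hx, by simp⟩
  · rintro ⟨a, ha, h⟩
    refine ⟨g⁻¹ * z, ?_, by simp⟩
    show f (g⁻¹ * z) ∈ A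
    have h' : f g * a = f z := h
    rw [map_mul, map_inv, ← h', inv_mul_cancel_left]
    exact ha

/-- T6. -/
theorem taskQuot : TaskQuot.{u} := by
  intro G Q _ _ f hf hG
  obtain ⟨m, h0, h1, h2, h3⟩ := hG
  refine ⟨fun A => m (f ⁻¹' A), fun A => h0 _, ?_, ?_, ?_⟩
  · show m (f ⁻¹' Set.univ) = 1
    rw [Set.preimage_univ]
    exact h1
  · intro A B hAB
    show m (f ⁻¹' (A ∪ B)) = m (f ⁻¹' A) + m (f ⁻¹' B)
    rw [Set.preimage_union]
    exact h2 _ _ (hAB.preimage f)
  · intro q A
    obtain ⟨g, rfl⟩ := hf q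
    show m (f ⁻¹' ((fun x => f g * x) '' A)) = m (f ⁻¹' A)
    rw [← image_preimage_quot]
    exact h3 g _

theorem pack_le_quot {G Q : Type u} [Group G] [Group Q] (f : G →* Q) (hf : Function.Surjective f)
    (A : Set Q) : pack A ≤ pack (f ⁻¹' A) := by
  unfold pack
  refine iSup_le ?_
  rintro ⟨E, hE⟩
  have hs : Function.RightInverse (Function.surjInv hf) f := Function.rightInverse_surjInv hf
  have hinj : Function.Injective (Function.surjInv hf) := Function.injective_surjInv hf
  have hE' : Packs (Function.surjInv hf '' E) (f ⁻¹' A) := by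
    rintro _ ⟨a, ha, rfl⟩ _ ⟨b, hb, rfl⟩ hab
    have hne : a ≠ b := fun h => hab (by rw [h])
    have hd := hE a ha b hb hne
    rw [Set.disjoint_left] at hd ⊢
    rintro z ⟨u, hu, hz⟩ ⟨v, hv, hz'⟩
    apply hd (a := f z)
    · refine ⟨f u, hu, ?_⟩
      have hz1 : Function.surjInv hf a * u = z := hz
      show a * f u = f z
      rw [← hz1, map_mul, hs a]
    · refine ⟨f v, hv, ?_⟩
      have hz1 : Function.surjInv hf b * v = z := hz'
      show b * f v = f z
      rw [← hz1, map_mul, hs b]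
  have hle := le_iSup (fun F : {F : Set G // Packs F (f ⁻¹' A)} => (F : Set G).encard)
    ⟨Function.surjInv hf '' E, hE'⟩
  have he : (Function.surjInv hf '' E).encard = E.encard := hinj.encard_image E
  calc E.encard = (Function.surjInv hf '' E).encard := he.symm
    _ ≤ _ := hle

/-- T10. -/
theorem taskBQuot : TaskBQuot.{u} := by
  intro G Q _ _ f hf hG n hn c
  obtain ⟨i, hi⟩ := hG n hn (fun x => c (f x))
  exact ⟨i, (pack_le_quot f hf {y | c y = i}).trans hi⟩

end Pool.Agent.H883B
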