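import Mathlib
import Pool.Agent.H883B.Stmts

/-! TaskRadical of the H883-PACK project (MP_d97def_al). -/

namespace Pool.Agent.H883B

universe u

theorem isAmenable_of_subsingleton_radical (G : Type u) [Group G] [Subsingleton G] :
    IsAmenable G := by
  classical
  refine ⟨fun A => if (1 : G) ∈ A then 1 else 0, ?_, ?_, ?_, ?_⟩
  · intro A
    dsimp only
    split_ifs <;> norm_num
  · simp
  · intro A B hAB
    dsimp only
    by_cases hA : (1 : G) ∈ A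
    · have hB : (1 : G) ∉ B := Set.disjoint_left.1 hAB hA
      simp [hA, hB]
    · by_cases hB : (1 : G) ∈ B <;> simp [hA, hB]
  · intro g A
    have hg : g = 1 := Subsingleton.elim _ _
    subst hg
    simp

theorem taskRadical : TaskRadical.{u} := by
  intro hExt hQuot hDir hRes G _
  let 𝒩 : Set (Subgroup G) := {N | N.Normal ∧ IsAmenable N}
  have hne : 𝒩.Nonempty :=
    ⟨⊥, inferInstance, isAmenable_of_subsingleton_radical _⟩
  have hsup : ∀ N₁ ∈ 𝒩, ∀ N₂ ∈ 𝒩, N₁ ⊔ N₂ ∈ 𝒩 := by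
    rintro N₁ ⟨h1, a1⟩ N₂ ⟨h2, a2⟩
    haveI := h1
    haveI := h2
    refine ⟨Subgroup.sup_normal N₁ N₂, ?_⟩
    have l1 : N₁ ≤ N₁ ⊔ N₂ := le_sup_left
    have l2 : N₂ ≤ N₁ ⊔ N₂ := le_sup_right
    haveI hK : (N₁.subgroupOf (N₁ ⊔ N₂)).Normal := Subgroup.normal_subgroupOf
    have aK : IsAmenable (N₁.subgroupOf (N₁ ⊔ N₂)) :=
      hQuot N₁ (N₁.subgroupOf (N₁ ⊔ N₂)) (Subgroup.subgroupOfEquivOfLe l1).symm.toMonoidHom
        (Subgroup.subgroupOfEquivOfLe l1).symm.surjective a1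
    have aQ : IsAmenable (↥(N₁ ⊔ N₂) ⧸ N₁.subgroupOf (N₁ ⊔ N₂)) := by
      refine hQuot N₂ _ ((QuotientGroup.mk' (N₁.subgroupOf (N₁ ⊔ N₂))).comp
        (Subgroup.inclusion l2)) ?_ a2
      intro q
      obtain ⟨x, rfl⟩ := QuotientGroup.mk'_surjective _ q
      have hx : (x : G) ∈ ((N₁ ⊔ N₂ : Subgroup G) : Set G) := x.2
      rw [Subgroup.normal_mul] at hx
      obtain ⟨a, ha, b, hb, hab⟩ := Set.mem_mul.1 hx
      refine ⟨⟨b, hb⟩, ?_⟩
      have hxe : x = (⟨a, l1 ha⟩ : ↥(N₁ ⊔ N₂)) * ⟨b, l2 hb⟩ := by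
        apply Subtype.ext
        exact hab.symm
      rw [hxe, map_mul]
      have h3 : QuotientGroup.mk' (N₁.subgroupOf (N₁ ⊔ N₂)) (⟨a, l1 ha⟩ : ↥(N₁ ⊔ N₂)) = 1 := by
        rw [QuotientGroup.mk'_apply, QuotientGroup.eq_one_iff, Subgroup.mem_subgroupOf]
        exact ha
      rw [h3, one_mul]
      rfl
    exact hExt _ (N₁.subgroupOf (N₁ ⊔ N₂)) aK aQ
  have hdirected : DirectedOn (· ≤ ·) 𝒩 := fun N₁ h1 N₂ h2 =>
    ⟨N₁ ⊔ N₂, hsup N₁ h1 N₂ h2, le_sup_left, le_sup_right⟩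
  refine ⟨sSup 𝒩, ?_, hDir hRes G 𝒩 hne hdirected (fun N hN => hN.2), ?_⟩
  · constructor
    intro n hn g
    rw [Subgroup.mem_sSup_of_directedOn hne hdirected] at hn ⊢
    obtain ⟨N, hN, hnN⟩ := hn
    exact ⟨N, hN, hN.1.conj_mem n hnN g⟩
  · intro N hN hA
    exact le_sSup ⟨hN, hA⟩

end Pool.Agent.H883B
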