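import Mathlib
import Pool.Agent.H883B.Stmts

/-!
T7 of project H883-PACK: directed unions of amenable subgroups are amenable.
-/

namespace Pool.Agent.H883B

open Filter Topology

universe u

theorem taskDirected : TaskDirected.{u} := by
  intro hR G _ 𝒩 hne hdir ham
  -- choose the means
  have hch : ∀ N : ↥𝒩, ∃ m : Set (N : Subgroup G) → ℝ, (∀ A, 0 ≤ m A) ∧ m Set.univ = 1 ∧
      (∀ A B, Disjoint A B → m (A ∪ B) = m A + m B) ∧
      ∀ (g : (N : Subgroup G)) (A : Set (N : Subgroup G)), m ((fun x => g * x) '' A) = m A :=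
    fun N => ham N.1 N.2
  choose mN h0 h1 hadd hinv using hch
  let f : Set G → ↥𝒩 → ℝ := fun A N => mN N {n | (n : G) ∈ A}
  have f0 : ∀ A N, 0 ≤ f A N := fun A N => h0 N _
  have funiv : ∀ N, f Set.univ N = 1 := by
    intro N
    have : ({n | (n : G) ∈ (Set.univ : Set G)} : Set (N : Subgroup G)) = Set.univ := by
      ext; simp
    show mN N _ = 1
    rw [this, h1]
  have fadd : ∀ A B N, Disjoint A B → f (A ∪ B) N = f A N + f B N := by
    intro A B N hAB
    have h2 : ({n | (n : G) ∈ A ∪ B} : Set (N : Subgroup G)) =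
        ({n | (n : G) ∈ A} : Set (N : Subgroup G)) ∪
          ({n | (n : G) ∈ B} : Set (N : Subgroup G)) := by
      ext; simp
    show mN N _ = mN N _ + mN N _
    rw [h2]
    refine hadd N _ _ ?_
    rw [Set.disjoint_left]
    intro x hx hx'
    exact (Set.disjoint_left.1 hAB) hx hx'
  have f1 : ∀ A N, f A N ≤ 1 := by
    intro A N
    have h2 := fadd A Aᶜ N disjoint_compl_right
    rw [Set.union_compl_self, funiv] at h2
    have h3 := f0 Aᶜ N
    linarith
  have finv : ∀ (g : G) (A : Set G) (N : ↥𝒩), g ∈ (N : Subgroup G) →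
      f ((fun x => g * x) '' A) N = f A N := by
    intro g A N hg
    have h2 : ({n | (n : G) ∈ (fun x => g * x) '' A} : Set (N : Subgroup G)) =
        (fun x => (⟨g, hg⟩ : (N : Subgroup G)) * x) '' {n | (n : G) ∈ A} := by
      ext n
      simp only [Set.mem_setOf_eq, Set.mem_image]
      constructor
      · rintro ⟨a, ha, hn⟩
        refine ⟨(⟨g, hg⟩ : (N : Subgroup G))⁻¹ * n, ?_, by simp⟩
        have : (((⟨g, hg⟩ : (N : Subgroup G))⁻¹ * n : (N : Subgroup G)) : G) = a := by
          rw [Subgroup.coe_mul, Subgroup.coe_inv, ← hn]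
          simp
        rw [this]
        exact ha
      · rintro ⟨a, ha, hn⟩
        refine ⟨(a : G), ha, ?_⟩
        rw [← hn]
        rfl
    show mN N _ = mN N _
    rw [h2, hinv]
  -- the ultrafilter
  have hdir' : IsDirected (↥𝒩) (· ≤ ·) := by
    refine ⟨fun a b => ?_⟩
    obtain ⟨c, hc, h2, h3⟩ := hdir a.1 a.2 b.1 b.2
    exact ⟨⟨c, hc⟩, h2, h3⟩
  have hne' : Nonempty ↥𝒩 := hne.to_subtype
  let U : Ultrafilter ↥𝒩 := Ultrafilter.of atTop
  have hU : (U : Filter ↥𝒩) ≤ atTop := Ultrafilter.of_le _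
  have hlim : ∀ A : Set G, ∃ x : ℝ, 0 ≤ x ∧ Tendsto (f A) (U : Filter ↥𝒩) (𝓝 x) := by
    intro A
    obtain ⟨x, hx, hx'⟩ := (isCompact_Icc (a := (0 : ℝ)) (b := 1)).ultrafilter_le_nhds
      (U.map (f A)) (by
        rw [le_principal_iff]
        show f A ⁻¹' (Set.Icc 0 1) ∈ U
        refine mem_of_superset univ_mem ?_
        intro N _
        exact ⟨f0 A N, f1 A N⟩)
    exact ⟨x, hx.1, hx'⟩
  choose m hm0 hm using hlim
  have key : IsAmenable (Subgroup.closure (⋃ N ∈ 𝒩, (N : Set G))) := by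
    refine hR G _ m hm0 ?_ ?_ ?_
    · refine tendsto_nhds_unique (hm Set.univ) ?_
      have : f Set.univ = fun _ => (1 : ℝ) := funext funiv
      rw [this]
      exact tendsto_const_nhds
    · intro A B hAB
      refine tendsto_nhds_unique (hm (A ∪ B)) ?_
      have : f (A ∪ B) = fun N => f A N + f B N := funext fun N => fadd A B N hAB
      rw [this]
      exact (hm A).add (hm B)
    · intro g hg A
      simp only [Set.mem_iUnion, SetLike.mem_coe, exists_prop] at hg
      obtain ⟨N0, hN0, hgN⟩ := hg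
      refine tendsto_nhds_unique (hm _) ?_
      refine (hm A).congr' ?_
      have h2 : ∀ᶠ N : ↥𝒩 in atTop, (⟨N0, hN0⟩ : ↥𝒩) ≤ N := eventually_ge_atTop _
      filter_upwards [hU h2] with N hN
      exact (finv g A N (hN hgN)).symm
  have hcl : Subgroup.closure (⋃ N ∈ 𝒩, (N : Set G)) = sSup 𝒩 := by
    refine le_antisymm ?_ ?_
    · rw [Subgroup.closure_le]
      refine Set.iUnion₂_subset ?_
      intro N hN
      exact (le_sSup hN : N ≤ sSup 𝒩)
    · refine sSup_le ?_
      intro N hN x hx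
      exact Subgroup.subset_closure (Set.mem_biUnion hN hx)
  rw [hcl] at key
  exact key

end Pool.Agent.H883B
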