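import Pool.Agent.H883B.Stmts

set_option autoImplicit false

namespace Pool.Agent.H883B

universe u

open Filter Topology

namespace ExtTask

/-- finitely additive probability -/
structure FA {Q : Type u} (m : Set Q → ℝ) : Prop where
  nn : ∀ A, 0 ≤ m A
  one : m Set.univ = 1
  add : ∀ A B, Disjoint A B → m (A ∪ B) = m A + m B

variable {Q : Type u} {m : Set Q → ℝ}

theorem FA.empty (h : FA m) : m ∅ = 0 := by
  have := h.add ∅ ∅ (by simp)
  rw [Set.union_empty] at this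
  linarith

theorem FA.mono (h : FA m) {A B : Set Q} (hAB : A ⊆ B) : m A ≤ m B := by
  have := h.add A (B \ A) Set.disjoint_sdiff_right
  rw [Set.union_sdiff_cancel hAB] at this
  linarith [h.nn (B \ A)]

theorem FA.sum (h : FA m) {κ : Type*} [DecidableEq κ] (s : Finset κ) (A : κ → Set Q)
    (hd : ∀ i ∈ s, ∀ j ∈ s, i ≠ j → Disjoint (A i) (A j)) :
    m (⋃ i ∈ s, A i) = ∑ i ∈ s, m (A i) := by
  induction s using Finset.induction_on with
  | empty => simpa using h.empty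
  | insert a s ha ih =>
    rw [Finset.set_biUnion_insert, Finset.sum_insert ha, h.add, ih]
    · exact fun i hi j hj => hd i (Finset.mem_insert_of_mem hi) j (Finset.mem_insert_of_mem hj)
    · rw [Set.disjoint_iUnion₂_right]
      intro i hi
      exact hd a (Finset.mem_insert_self _ _) i (Finset.mem_insert_of_mem hi)
        (fun hai => ha (hai ▸ hi))

/-- the integral of a bounded `ℕ`-valued function -/
noncomputable def SI (m : Set Q → ℝ) (M : ℕ) (h : Q → ℕ) : ℝ :=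
  ∑ v ∈ Finset.range (M + 1), (v : ℝ) * m {q | h q = v}

theorem FA.cov (h : FA m) {κ : Type*} [Fintype κ] [DecidableEq κ] (w : Q → κ) (φ : κ → ℕ) (M : ℕ)
    (hφ : ∀ k, φ k ≤ M) : SI m M (fun q => φ (w q)) = ∑ k, (φ k : ℝ) * m {q | w q = k} := by
  rw [SI, ← Finset.sum_fiberwise_of_maps_to (s := Finset.univ) (t := Finset.range (M + 1)) (g := φ)
    (fun k _ => Finset.mem_range.2 (Nat.lt_succ_of_le (hφ k)))]
  apply Finset.sum_congr rfl
  intro v _
  have h1 : {q | φ (w q) = v} = ⋃ k ∈ Finset.univ.filter (fun k => φ k = v), {q | w q = k} := by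
    ext q
    simp
  rw [h1, h.sum, Finset.mul_sum]
  · apply Finset.sum_congr rfl
    intro k hk
    rw [(Finset.mem_filter.1 hk).2]
  · intro i _ j _ hij
    rw [Set.disjoint_left]
    intro q hq hq'
    exact hij (hq.symm.trans hq')

theorem FA.SI_add (h : FA m) {M : ℕ} {h1 h2 : Q → ℕ} (b1 : ∀ q, h1 q ≤ M) (b2 : ∀ q, h2 q ≤ M)
    {M' : ℕ} (hM' : M + M ≤ M') :
    SI m M' (fun q => h1 q + h2 q) = SI m M h1 + SI m M h2 := by
  let w : Q → Fin (M + 1) × Fin (M + 1) := fun q =>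
    (⟨h1 q, Nat.lt_succ_of_le (b1 q)⟩, ⟨h2 q, Nat.lt_succ_of_le (b2 q)⟩)
  have e1 := h.cov w (fun k => (k.1 : ℕ)) M (fun k => Nat.le_of_lt_succ k.1.2)
  have e2 := h.cov w (fun k => (k.2 : ℕ)) M (fun k => Nat.le_of_lt_succ k.2.2)
  have e3 := h.cov w (fun k => (k.1 : ℕ) + (k.2 : ℕ)) M' (fun k => by
    have h1 := Nat.le_of_lt_succ k.1.2
    have h2 := Nat.le_of_lt_succ k.2.2
    omega)
  have e1' : SI m M h1 = ∑ k : Fin (M + 1) × Fin (M + 1), ((k.1 : ℕ) : ℝ) * m {q | w q = k} := e1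
  have e2' : SI m M h2 = ∑ k : Fin (M + 1) × Fin (M + 1), ((k.2 : ℕ) : ℝ) * m {q | w q = k} := e2
  have e3' : SI m M' (fun q => h1 q + h2 q) = ∑ k : Fin (M + 1) × Fin (M + 1),
    ((((k.1 : ℕ) + (k.2 : ℕ) : ℕ)) : ℝ) * m {q | w q = k} := e3
  rw [e1', e2', e3', ← Finset.sum_add_distrib]
  apply Finset.sum_congr rfl
  intro k _
  push_cast
  ring

theorem FA.SI_indep (h : FA m) {M M' : ℕ} {h1 : Q → ℕ} (b1 : ∀ q, h1 q ≤ M) (hM : M ≤ M') :
    SI m M' h1 = SI m M h1 := by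
  let w : Q → Fin (M + 1) := fun q => ⟨h1 q, Nat.lt_succ_of_le (b1 q)⟩
  have e1 := h.cov w (fun k => (k : ℕ)) M (fun k => Nat.le_of_lt_succ k.2)
  have e2 := h.cov w (fun k => (k : ℕ)) M' (fun k => (Nat.le_of_lt_succ k.2).trans hM)
  exact e2.trans e1.symm

theorem SI_nonneg (h : FA m) (M : ℕ) (h1 : Q → ℕ) : 0 ≤ SI m M h1 :=
  Finset.sum_nonneg fun v _ => mul_nonneg (Nat.cast_nonneg v) (h.nn _)

theorem FA.SI_mono (h : FA m) {M : ℕ} {h1 h2 : Q → ℕ} (b2 : ∀ q, h2 q ≤ M) (h12 : ∀ q, h1 q ≤ h2 q) :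
    SI m M h1 ≤ SI m M h2 := by
  have b1 : ∀ q, h1 q ≤ M := fun q => (h12 q).trans (b2 q)
  have b3 : ∀ q, h2 q - h1 q ≤ M := fun q => (Nat.sub_le _ _).trans (b2 q)
  have e := h.SI_add b1 b3 (le_refl (M + M))
  have e2 : (fun q => h1 q + (h2 q - h1 q)) = h2 := by
    funext q
    have := h12 q
    omega
  rw [e2, h.SI_indep b2 (by omega)] at e
  rw [e]
  linarith [SI_nonneg h M (fun q => h2 q - h1 q)]

theorem FA.SI_one (h : FA m) : SI m 1 (fun _ : Q => 1) = 1 := by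
  have e := h.cov (fun _ : Q => ()) (fun _ => 1) 1 (fun _ => le_refl 1)
  rw [e]
  simp [h.one]

/-- the approximate integral -/
noncomputable def IN (m : Set Q → ℝ) (N : ℕ) (f : Q → ℝ) : ℝ :=
  SI m N (fun q => ⌊(N : ℝ) * f q⌋₊) / N

theorem floor_bd {N : ℕ} {x : ℝ} (hx : x ≤ 1) : ⌊(N : ℝ) * x⌋₊ ≤ N := by
  apply Nat.floor_le_of_le
  have : (0 : ℝ) ≤ N := Nat.cast_nonneg N
  nlinarith

theorem IN_nonneg (h : FA m) (N : ℕ) (f : Q → ℝ) : 0 ≤ IN m N f :=
  div_nonneg (SI_nonneg h _ _) (Nat.cast_nonneg N)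

theorem IN_one (h : FA m) {N : ℕ} (hN : 0 < N) : IN m N (fun _ => 1) = 1 := by
  have h1 : (fun q : Q => ⌊(N : ℝ) * (1 : ℝ)⌋₊) = fun _ => N := by
    funext q
    rw [mul_one, Nat.floor_natCast]
  rw [IN, h1]
  have e := h.cov (fun _ : Q => ()) (fun _ => N) N (fun _ => le_refl N)
  rw [e]
  have hN' : (N : ℝ) ≠ 0 := by positivity
  simp [h.one, hN']

theorem IN_add (h : FA m) {N : ℕ} (hN : 0 < N) {f g : Q → ℝ} (hf : ∀ q, 0 ≤ f q) (hg : ∀ q, 0 ≤ g q)
    (hfg : ∀ q, f q + g q ≤ 1) :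
    |IN m N (fun q => f q + g q) - (IN m N f + IN m N g)| ≤ 1 / N := by
  have hNr : (0 : ℝ) < N := by positivity
  have bf : ∀ q, ⌊(N : ℝ) * f q⌋₊ ≤ N := fun q => floor_bd (by linarith [hg q, hfg q])
  have bg : ∀ q, ⌊(N : ℝ) * g q⌋₊ ≤ N := fun q => floor_bd (by linarith [hf q, hfg q])
  have bfg : ∀ q, ⌊(N : ℝ) * (f q + g q)⌋₊ ≤ N := fun q => floor_bd (hfg q)
  have e1 := h.SI_add bf bg (show N + N ≤ (N + N) + (N + N) by omega)
  have e2 : SI m (N + N + (N + N)) (fun q => (⌊(N : ℝ) * f q⌋₊ + ⌊(N : ℝ) * g q⌋₊) + 1) =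
      SI m (N + N) (fun q => ⌊(N : ℝ) * f q⌋₊ + ⌊(N : ℝ) * g q⌋₊) + SI m (N + N) (fun _ => 1) := by
    apply h.SI_add (M := N + N) _ _ (le_refl _)
    · intro q
      have := bf q
      have := bg q
      omega
    · intro q
      omega
  have e3 : SI m (N + N) (fun _ : Q => 1) = 1 := by
    rw [h.SI_indep (M := 1) (fun _ => le_refl 1) (by omega), h.SI_one]
  have e4 : SI m (N + N + (N + N)) (fun q => ⌊(N : ℝ) * f q⌋₊ + ⌊(N : ℝ) * g q⌋₊) =
      SI m (N + N) (fun q => ⌊(N : ℝ) * f q⌋₊ + ⌊(N : ℝ) * g q⌋₊) := by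
    apply h.SI_indep _ (by omega)
    intro q
    have := bf q
    have := bg q
    omega
  have e5 : SI m (N + N + (N + N)) (fun q => ⌊(N : ℝ) * (f q + g q)⌋₊) =
      SI m N (fun q => ⌊(N : ℝ) * (f q + g q)⌋₊) := h.SI_indep bfg (by omega)
  have l1 : SI m (N + N + (N + N)) (fun q => ⌊(N : ℝ) * f q⌋₊ + ⌊(N : ℝ) * g q⌋₊) ≤
      SI m (N + N + (N + N)) (fun q => ⌊(N : ℝ) * (f q + g q)⌋₊) := by
    apply h.SI_mono
    · intro q
      have := bfg q
      omega
    · intro q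
      apply Nat.le_floor
      push_cast
      have a1 := Nat.floor_le (mul_nonneg hNr.le (hf q))
      have a2 := Nat.floor_le (mul_nonneg hNr.le (hg q))
      linarith
  have l2 : SI m (N + N + (N + N)) (fun q => ⌊(N : ℝ) * (f q + g q)⌋₊) ≤
      SI m (N + N + (N + N)) (fun q => (⌊(N : ℝ) * f q⌋₊ + ⌊(N : ℝ) * g q⌋₊) + 1) := by
    apply h.SI_mono
    · intro q
      have := bf q
      have := bg q
      omega
    · intro q
      have a1 := Nat.lt_floor_add_one ((N : ℝ) * f q)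
      have a2 := Nat.lt_floor_add_one ((N : ℝ) * g q)
      have a3 := Nat.floor_le (mul_nonneg hNr.le (add_nonneg (hf q) (hg q)))
      have a4 : ((⌊(N : ℝ) * (f q + g q)⌋₊ : ℕ) : ℝ) <
          ((⌊(N : ℝ) * f q⌋₊ + ⌊(N : ℝ) * g q⌋₊ + 2 : ℕ) : ℝ) := by
        push_cast
        linarith
      have a5 := Nat.cast_lt.1 a4
      omega
  rw [e5, e4] at l1
  rw [e5, e2, e3] at l2
  rw [e4] at e1
  rw [e1] at l1 l2
  unfold IN
  rw [← add_div, ← sub_div, abs_div, abs_of_pos hNr]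
  apply div_le_div_of_nonneg_right _ hNr.le
  rw [abs_le]
  constructor <;> linarith

end ExtTask

open ExtTask in
theorem taskExt : TaskExt.{u} := by
  intro G _ K _ hK hQ
  obtain ⟨mK, k1, k2, k3, k4⟩ := hK
  obtain ⟨mQ, q1, q2, q3, q4⟩ := hQ
  have hmK : FA mK := ⟨k1, k2, k3⟩
  have hmQ : FA mQ := ⟨q1, q2, q3⟩
  let φ : Set G → (G ⧸ K) → ℝ := fun A q => mK {k : K | q.out * (k : G) ∈ A}
  have hφrep : ∀ (A : Set G) (x : G), mK {k : K | x * (k : G) ∈ A} = φ A (x : G ⧸ K) := by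
    intro A x
    have h1 : ((x : G ⧸ K).out : G ⧸ K) = (x : G ⧸ K) := Quotient.out_eq' _
    have h2 : ((x : G ⧸ K).out)⁻¹ * x ∈ K := QuotientGroup.eq.1 h1
    let k0 : K := ⟨_, h2⟩
    have h3 : (fun k => k0 * k) '' {k : K | x * (k : G) ∈ A} =
        {k : K | (x : G ⧸ K).out * (k : G) ∈ A} := by
      ext k
      constructor
      · rintro ⟨k', hk', rfl⟩
        have : (x : G ⧸ K).out * ((k0 * k' : K) : G) = x * (k' : G) := by
          simp only [Subgroup.coe_mul, k0]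
          group
        rw [Set.mem_ofPred_eq, this]
        exact hk'
      · intro hk
        refine ⟨k0⁻¹ * k, ?_, by group⟩
        have : x * ((k0⁻¹ * k : K) : G) = (x : G ⧸ K).out * (k : G) := by
          simp only [Subgroup.coe_mul, Subgroup.coe_inv, k0]
          group
        rw [Set.mem_ofPred_eq, this]
        exact hk
    have h4 := k4 k0 {k : K | x * (k : G) ∈ A}
    rw [h3] at h4
    exact h4.symm
  have hφ0 : ∀ A q, 0 ≤ φ A q := fun A q => k1 _
  have hφ1 : ∀ A q, φ A q ≤ 1 := fun A q => by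
    rw [← k2]
    exact hmK.mono (Set.subset_univ _)
  have hφadd : ∀ A B, Disjoint A B → ∀ q, φ (A ∪ B) q = φ A q + φ B q := by
    intro A B hAB q
    have h1 : {k : K | q.out * (k : G) ∈ A ∪ B} =
        {k : K | q.out * (k : G) ∈ A} ∪ {k : K | q.out * (k : G) ∈ B} := rfl
    change mK _ = _
    rw [h1]
    apply k3
    rw [Set.disjoint_left]
    intro k hk hk'
    exact Set.disjoint_left.1 hAB hk hk'
  have hφuniv : ∀ q, φ Set.univ q = 1 := by
    intro q
    change mK _ = _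
    rw [← k2]
    rfl
  have hφg : ∀ (g : G) (A : Set G) (q : G ⧸ K), φ ((fun x => g * x) '' A) ((g : G ⧸ K) * q) = φ A q := by
    intro g A q
    have h1 : ((g * q.out : G) : G ⧸ K) = (g : G ⧸ K) * q := by
      rw [QuotientGroup.mk_mul]
      congr 1
      exact Quotient.out_eq' _
    rw [← h1, ← hφrep]
    change mK _ = mK _
    congr 1
    ext k
    constructor
    · rintro ⟨a, ha, hak⟩
      have : a = q.out * (k : G) := by
        have : g * a = g * (q.out * (k : G)) := by rw [← mul_assoc]; exact hak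
        exact mul_left_cancel this
      rw [Set.mem_ofPred_eq, ← this]
      exact ha
    · intro hk
      exact ⟨q.out * (k : G), hk, by group⟩
  -- the limit
  let U : Ultrafilter ℕ := hyperfilter ℕ
  have hbd : ∀ A N, 0 < N → IN mQ N (φ A) ∈ Set.Icc (0 : ℝ) 1 := by
    intro A N hN
    refine ⟨IN_nonneg hmQ N _, ?_⟩
    have hNr : (0 : ℝ) < N := by positivity
    unfold IN
    rw [div_le_one hNr]
    have h1 : SI mQ N (fun q => ⌊(N : ℝ) * φ A q⌋₊) ≤ SI mQ N (fun _ => N) := by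
      apply hmQ.SI_mono (fun _ => le_refl N)
      intro q
      exact floor_bd (hφ1 A q)
    have h2 := IN_one hmQ hN
    unfold IN at h2
    have h3 : (fun q : G ⧸ K => ⌊(N : ℝ) * (1 : ℝ)⌋₊) = fun _ => N := by
      funext q
      rw [mul_one, Nat.floor_natCast]
    rw [h3, div_eq_one_iff_eq hNr.ne'] at h2
    rw [h2] at h1
    exact h1
  have hex : ∀ A, ∃ L : ℝ, Tendsto (fun N => IN mQ N (φ A)) U (𝓝 L) := by
    intro A
    have hev : ∀ᶠ N in (U : Filter ℕ), 0 < N := by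
      have : (U : Filter ℕ) ≤ atTop := by
        rw [← Nat.cofinite_eq_atTop]
        exact hyperfilter_le_cofinite
      exact this (eventually_gt_atTop 0)
    have hmem : Set.Icc (0 : ℝ) 1 ∈ (U.map (fun N => IN mQ N (φ A)) : Ultrafilter ℝ) := by
      rw [Ultrafilter.mem_map]
      filter_upwards [hev] with N hN
      exact hbd A N hN
    obtain ⟨L, _, hL⟩ := isCompact_Icc.ultrafilter_le_nhds (U.map (fun N => IN mQ N (φ A)))
      (le_principal_iff.2 hmem)
    exact ⟨L, hL⟩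
  have hle : (U : Filter ℕ) ≤ atTop := by
    rw [← Nat.cofinite_eq_atTop]
    exact hyperfilter_le_cofinite
  have hev : ∀ᶠ N in (U : Filter ℕ), 0 < N := hle (eventually_gt_atTop 0)
  choose M hM using hex
  refine ⟨M, ?_, ?_, ?_, ?_⟩
  · intro A
    exact ge_of_tendsto' (hM A) (fun N => IN_nonneg hmQ N _)
  · apply tendsto_nhds_unique (hM Set.univ)
    apply tendsto_const_nhds.congr'
    filter_upwards [hev] with N hN
    have : φ Set.univ = fun _ => 1 := funext hφuniv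
    rw [this, IN_one hmQ hN]
  · intro A B hAB
    have h1 : Tendsto (fun N => IN mQ N (φ (A ∪ B)) - (IN mQ N (φ A) + IN mQ N (φ B))) U
        (𝓝 (M (A ∪ B) - (M A + M B))) := (hM (A ∪ B)).sub ((hM A).add (hM B))
    have h2 : Tendsto (fun N => IN mQ N (φ (A ∪ B)) - (IN mQ N (φ A) + IN mQ N (φ B))) U (𝓝 0) := by
      apply squeeze_zero_norm' (a := fun N : ℕ => 1 / (N : ℝ))
      · filter_upwards [hev] with N hN
        have h3 : φ (A ∪ B) = fun q => φ A q + φ B q := funext (hφadd A B hAB)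
        rw [h3, Real.norm_eq_abs]
        apply IN_add hmQ hN (hφ0 A) (hφ0 B)
        intro q
        rw [← hφadd A B hAB q]
        exact hφ1 _ q
      · exact (tendsto_one_div_atTop_nhds_zero_nat (𝕜 := ℝ)).mono_left hle
    have := tendsto_nhds_unique h1 h2
    linarith
  · intro g A
    apply tendsto_nhds_unique (hM _)
    refine (hM A).congr fun N => ?_
    unfold IN SI
    congr 1
    apply Finset.sum_congr rfl
    intro v _
    congr 1
    rw [← q4 (g : G ⧸ K) {q | ⌊(N : ℝ) * φ A q⌋₊ = v}]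
    congr 1
    ext q
    constructor
    · rintro ⟨q', hq', rfl⟩
      change ⌊(N : ℝ) * φ ((fun x => g * x) '' A) ((g : G ⧸ K) * q')⌋₊ = v
      rw [hφg]
      exact hq'
    · intro hq
      refine ⟨(g : G ⧸ K)⁻¹ * q, ?_, by group⟩
      change ⌊(N : ℝ) * φ A ((g : G ⧸ K)⁻¹ * q)⌋₊ = v
      rw [← hφg g A, mul_inv_cancel_left]
      exact hq

end Pool.Agent.H883B
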