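import Pool.Agent.H883B.Stmts

/-! T2: elements of a large finite subgroup are good (helper121) -/

set_option autoImplicit false

namespace Pool.Agent.H883B

universe u

/-- the representative of the right coset -/
noncomputable def bb_fin {G : Type u} [Group G] (F : Subgroup G) (x : G) : G :=
  Quotient.out (Quotient.mk (QuotientGroup.rightRel F) x)

theorem bb_fin_eq {G : Type u} [Group G] (F : Subgroup G) (x y : G) :
    bb_fin F x = bb_fin F y ↔ y * x⁻¹ ∈ F := by
  rw [← QuotientGroup.rightRel_apply]
  constructor
  · intro h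
    have h1 : Quotient.mk (QuotientGroup.rightRel F) x = Quotient.mk (QuotientGroup.rightRel F) y := by
      have := congrArg (Quotient.mk (QuotientGroup.rightRel F)) h
      simpa [bb_fin, Quotient.out_eq] using this
    exact Quotient.exact h1
  · intro h
    have h1 : Quotient.mk (QuotientGroup.rightRel F) x = Quotient.mk (QuotientGroup.rightRel F) y :=
      Quotient.sound h
    simp only [bb_fin, h1]

theorem bb_fin_mul {G : Type u} [Group G] (F : Subgroup G) {h : G} (hh : h ∈ F) (x : G) :
    bb_fin F (h * x) = bb_fin F x := by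
  rw [bb_fin_eq]
  have : x * (h * x)⁻¹ = h⁻¹ := by group
  rw [this]
  exact F.inv_mem hh

theorem block_fin {G : Type u} [Group G] (F : Subgroup G) (x : G) :
    {y : G | bb_fin F y = bb_fin F x} = (fun h => h * x) '' (F : Set G) := by
  ext y
  simp only [Set.mem_setOf_eq, Set.mem_image, SetLike.mem_coe]
  constructor
  · intro h
    have h1 := (bb_fin_eq F x y).1 h.symm
    exact ⟨y * x⁻¹, h1, by group⟩
  · rintro ⟨h, hh, rfl⟩
    exact bb_fin_mul F hh x

theorem taskFin : TaskFin.{u} := by
  intro G _ F hF g hg ε hε hcard
  classical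
  have : Fintype F := Fintype.ofFinite F
  have hL0 : 0 < Nat.card F := Nat.card_pos
  have hLncard : (F : Set G).ncard = Nat.card F := rfl
  have hblock : ∀ x : G, {y : G | bb_fin F y = bb_fin F x}.ncard = Nat.card F := by
    intro x
    rw [block_fin, Set.ncard_image_of_injective _ (mul_left_injective x), hLncard]
  have hfin : ∀ x : G, {y : G | bb_fin F y = bb_fin F x}.Finite := by
    intro x
    apply Set.finite_of_ncard_pos
    rw [hblock]
    exact hL0
  refine ⟨Nat.card F, bb_fin F, hL0, hcard, hblock, ?_, ?_⟩
  · -- the boundary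
    intro Y
    set t : G → Finset G := fun w => Y.filter (fun y => bb_fin F y = w) with ht
    set o : G → Finset G := fun w => (Y.filter (fun y => g * y ∉ Y)).filter
      (fun y => bb_fin F y = w) with ho
    have h1 : bdry g Y = ∑ w ∈ Y.image (bb_fin F), (o w).card := by
      unfold bdry
      apply Finset.card_eq_sum_card_fiberwise
      intro y hy
      rw [Finset.mem_coe, Finset.mem_filter] at hy
      rw [Finset.mem_coe]
      exact Finset.mem_image_of_mem _ hy.1
    have h2 : ∀ w ∈ Y.image (bb_fin F), ((o w).card : ℝ) ≤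
        min (cnt (bb_fin F) Y w : ℝ) ((Nat.card F : ℝ) - cnt (bb_fin F) Y w) := by
      intro w hw
      rw [Finset.mem_image] at hw
      obtain ⟨x, hx, rfl⟩ := hw
      have hcnt : cnt (bb_fin F) Y (bb_fin F x) = (t (bb_fin F x)).card := by
        simp [cnt, t]
      rw [hcnt]
      apply le_min
      · have : o (bb_fin F x) ⊆ t (bb_fin F x) := by
          intro y hy
          simp only [o, t, Finset.mem_filter] at hy ⊢
          exact ⟨hy.1.1, hy.2⟩
        exact_mod_cast Finset.card_le_card this
      · have h3 : ((o (bb_fin F x)).image (fun y => g * y)).card = (o (bb_fin F x)).card :=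
          Finset.card_image_of_injective _ (mul_right_injective g)
        have h4 : Disjoint (t (bb_fin F x)) ((o (bb_fin F x)).image (fun y => g * y)) := by
          rw [Finset.disjoint_left]
          intro y hy hy'
          simp only [o, t, Finset.mem_filter, Finset.mem_image] at hy hy'
          obtain ⟨z, hz, rfl⟩ := hy'
          exact hz.1.2 hy.1
        have h5 : t (bb_fin F x) ∪ (o (bb_fin F x)).image (fun y => g * y) ⊆ (hfin x).toFinset := by
          intro y hy
          rw [Set.Finite.mem_toFinset, Set.mem_setOf_eq]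
          simp only [o, t, Finset.mem_union, Finset.mem_filter, Finset.mem_image] at hy
          rcases hy with hy | ⟨z, hz, rfl⟩
          · exact hy.2
          · rw [bb_fin_mul F hg]
            exact hz.2
        have h6 := Finset.card_le_card h5
        rw [Finset.card_union_of_disjoint h4, h3, ← Set.ncard_eq_toFinset_card _ (hfin x),
          hblock] at h6
        have h7 : ((t (bb_fin F x)).card : ℝ) + (o (bb_fin F x)).card ≤ Nat.card F := by
          exact_mod_cast h6
        linarith
    have h3 : (bdry g Y : ℝ) ≤ ∑ w ∈ Y.image (bb_fin F),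
        min (cnt (bb_fin F) Y w : ℝ) ((Nat.card F : ℝ) - cnt (bb_fin F) Y w) := by
      rw [h1]
      push_cast
      exact Finset.sum_le_sum h2
    have h4 : (0 : ℝ) ≤ ∑ w ∈ Y.image (bb_fin F),
        min (cnt (bb_fin F) Y w : ℝ) ((Nat.card F : ℝ) - cnt (bb_fin F) Y w) :=
      Finset.sum_nonneg fun w hw => le_trans (Nat.cast_nonneg _) (h2 w hw)
    have h5 : 0 ≤ ε * Y.card := by positivity
    linarith
  · -- the colouring
    intro c B hcL hB
    have he : ∀ w : G, ∃ e : G → ℕ, Set.InjOn e {y : G | y ∈ B ∧ bb_fin F y = w} ∧
        ∀ y, y ∈ B → bb_fin F y = w → e y < c := by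
      intro w
      by_cases hw : ∃ x, bb_fin F x = w
      · obtain ⟨x, rfl⟩ := hw
        have hf : {y : G | y ∈ B ∧ bb_fin F y = bb_fin F x}.Finite :=
          (hfin x).subset fun y hy => hy.2
        have hc : hf.toFinset.card ≤ c := by
          rw [← Set.ncard_eq_toFinset_card _ hf]
          exact hB x
        refine ⟨fun y => if h : y ∈ hf.toFinset then (hf.toFinset.equivFin ⟨y, h⟩ : ℕ) else 0,
          ?_, ?_⟩
        · intro y hy z hz hyz
          have hy' : y ∈ hf.toFinset := hf.mem_toFinset.2 hy
          have hz' : z ∈ hf.toFinset := hf.mem_toFinset.2 hz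
          simp only [dif_pos hy', dif_pos hz'] at hyz
          have := hf.toFinset.equivFin.injective (Fin.ext hyz)
          exact congrArg Subtype.val this
        · intro y hyB hyb
          have hy' : y ∈ hf.toFinset := hf.mem_toFinset.2 ⟨hyB, hyb⟩
          simp only [dif_pos hy']
          exact lt_of_lt_of_le (hf.toFinset.equivFin ⟨y, hy'⟩).2 hc
      · refine ⟨fun _ => 0, ?_, ?_⟩
        · intro y hy
          exact absurd ⟨y, hy.2⟩ hw
        · intro y _ hy
          exact absurd ⟨y, hy⟩ hw
    choose e he1 he2 using he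
    refine ⟨c, fun x => e (bb_fin F x) x, ?_, fun x hx => he2 _ x hx rfl, ?_⟩
    · have hL : (0 : ℝ) < Nat.card F := by exact_mod_cast hL0
      have : ((c : ℝ) / (Nat.card F : ℝ) + ε) * (Nat.card F : ℝ) = c + ε * Nat.card F := by
        field_simp
      rw [this]
      linarith
    · intro j _
      refine ⟨Finset.univ.image (fun h : F => (h : G)), ?_, ?_⟩
      · rw [Finset.card_image_of_injective _ Subtype.val_injective, Finset.card_univ,
          Nat.card_eq_fintype_card]
      · intro x hx y hy hxy
        rw [Finset.mem_coe, Finset.mem_image] at hx hy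
        obtain ⟨⟨x, hxF⟩, -, rfl⟩ := hx
        obtain ⟨⟨y, hyF⟩, -, rfl⟩ := hy
        rw [Set.disjoint_left]
        rintro z ⟨a, ha, rfl⟩ ⟨a', ha', haa⟩
        simp only [] at haa
        simp only [Set.mem_setOf_eq] at ha ha'
        have hb : bb_fin F a' = bb_fin F a := by
          rw [← bb_fin_mul F hyF a', haa, bb_fin_mul F hxF a]
        have h1 : a' = a := by
          apply he1 (bb_fin F a) ⟨ha'.1, hb⟩ ⟨ha.1, rfl⟩
          rw [ha.2, ← ha'.2, hb]
        rw [h1] at haa
        exact hxy (mul_right_cancel haa).symm

end Pool.Agent.H883B
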