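import Pool.Agent.H883B.Stmts

set_option autoImplicit false

/-!
# TaskRestrict: a mean on `G` invariant under `S` gives a mean on the subgroup generated by `S`
-/

namespace Pool.Agent.H883B

universe u

theorem inv_closure_restrict {G : Type u} [Group G] (S : Set G) (m : Set G → ℝ)
    (h : ∀ g ∈ S, ∀ A : Set G, m ((fun x => g * x) '' A) = m A) (n : G)
    (hn : n ∈ Subgroup.closure S) : ∀ A : Set G, m ((fun x => n * x) '' A) = m A := by
  induction hn using Subgroup.closure_induction with
  | mem x hx => exact h x hx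
  | one => intro A; simp
  | mul x y _ _ hx hy =>
    intro A
    have e : (fun z => x * y * z) '' A = (fun z => x * z) '' ((fun z => y * z) '' A) := by
      rw [Set.image_image]
      simp only [mul_assoc]
    rw [e, hx, hy]
  | inv x _ hx =>
    intro A
    have h1 := hx ((fun z => x⁻¹ * z) '' A)
    rw [Set.image_image] at h1
    simp only [mul_inv_cancel_left, Set.image_id'] at h1
    exact h1.symm

theorem taskRestrict : TaskRestrict.{u} := by
  intro G _ S m m0 m1 madd minv
  have hN := inv_closure_restrict S m minv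
  set N : Subgroup G := Subgroup.closure S with hNdef
  let ρ : G → G := fun x => (Quotient.mk (QuotientGroup.rightRel N) x).out
  have hρ : ∀ x : G, x * (ρ x)⁻¹ ∈ N := by
    intro x
    have h : (QuotientGroup.rightRel N) (ρ x) x := Quotient.exact (Quotient.out_eq _)
    exact QuotientGroup.rightRel_apply.1 h
  have hρn : ∀ (n : G) (x : G), n ∈ N → ρ (n * x) = ρ x := by
    intro n x hn
    have h : (Quotient.mk (QuotientGroup.rightRel N) (n * x)) =
        (Quotient.mk (QuotientGroup.rightRel N) x) := by
      apply Quotient.sound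
      refine QuotientGroup.rightRel_apply.2 ?_
      have e : x * (n * x)⁻¹ = n⁻¹ := by group
      rw [e]
      exact N.inv_mem hn
    show (Quotient.mk (QuotientGroup.rightRel N) (n * x)).out = _
    rw [h]
  let ν : G → N := fun x => ⟨x * (ρ x)⁻¹, hρ x⟩
  have hν : ∀ (n : N) (x : G), ν ((n : G) * x) = n * ν x := by
    intro n x
    apply Subtype.ext
    show (n : G) * x * (ρ ((n : G) * x))⁻¹ = (n : G) * (x * (ρ x)⁻¹)
    rw [hρn _ _ n.2, mul_assoc]
  refine ⟨fun A => m (ν ⁻¹' A), fun A => m0 _, ?_, ?_, ?_⟩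
  · simpa using m1
  · intro A B hAB
    show m (ν ⁻¹' (A ∪ B)) = _
    rw [Set.preimage_union]
    exact madd _ _ (hAB.preimage ν)
  · intro g A
    show m (ν ⁻¹' ((fun x => g * x) '' A)) = m (ν ⁻¹' A)
    rw [← hN (g : G) g.2 (ν ⁻¹' A)]
    congr 1
    ext x
    constructor
    · rintro ⟨a, ha, hax⟩
      refine ⟨(g : G)⁻¹ * x, ?_, by simp⟩
      show ν ((g : G)⁻¹ * x) ∈ A
      have h := hν g⁻¹ x
      have e : (((g⁻¹ : N) : G)) = (g : G)⁻¹ := rfl
      rw [e] at h
      rw [h, ← hax]
      simpa using ha
    · rintro ⟨y, hy, hyx⟩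
      refine ⟨ν y, hy, ?_⟩
      show g * ν y = ν x
      rw [← hν g y]
      exact congrArg ν hyx

end Pool.Agent.H883B
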