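import Pool.Agent.H883B.Stmts

/-!
# Task T9: the amenable radical of the quotient by the amenable radical is trivial
-/

set_option autoImplicit false

namespace Pool.Agent.H883B

universe u

theorem taskTop : TaskTop.{u} := by
  intro hExt hQuot G _ R _ hR hmax N hN hNa
  let P : Subgroup G := N.comap (QuotientGroup.mk' R)
  have hP : P.Normal := hN.comap (QuotientGroup.mk' R)
  have hRP : R ≤ P := by
    intro x hx
    have h1 : QuotientGroup.mk' R x = 1 := (QuotientGroup.eq_one_iff x).mpr hx
    change QuotientGroup.mk' R x ∈ N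
    rw [h1]
    exact N.one_mem
  let f : P →* N :=
    { toFun := fun x => ⟨QuotientGroup.mk' R x.1, x.2⟩
      map_one' := by ext; simp
      map_mul' := by intro a b; ext; simp }
  have hf : Function.Surjective f := by
    rintro ⟨y, hy⟩
    obtain ⟨g, rfl⟩ := QuotientGroup.mk'_surjective R y
    exact ⟨⟨g, hy⟩, rfl⟩
  have hker : f.ker = R.subgroupOf P := by
    ext x
    rw [MonoidHom.mem_ker, Subgroup.mem_subgroupOf]
    constructor
    · intro h
      have h2 : QuotientGroup.mk' R x.1 = 1 := congrArg Subtype.val h
      exact (QuotientGroup.eq_one_iff x.1).mp h2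
    · intro h
      apply Subtype.ext
      exact (QuotientGroup.eq_one_iff x.1).mpr h
  have hKa : IsAmenable f.ker := by
    rw [hker]
    exact hQuot R (R.subgroupOf P) (Subgroup.subgroupOfEquivOfLe hRP).symm.toMonoidHom
      (Subgroup.subgroupOfEquivOfLe hRP).symm.surjective hR
  have hPK : IsAmenable (P ⧸ f.ker) :=
    hQuot N (P ⧸ f.ker) (QuotientGroup.quotientKerEquivOfSurjective f hf).symm.toMonoidHom
      (QuotientGroup.quotientKerEquivOfSurjective f hf).symm.surjective hNa
  have hPa : IsAmenable P := hExt P f.ker hKa hPK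
  have hPR : P ≤ R := hmax P hP hPa
  rw [Subgroup.eq_bot_iff_forall]
  intro x hx
  obtain ⟨g, rfl⟩ := QuotientGroup.mk'_surjective R x
  exact (QuotientGroup.eq_one_iff g).mpr (hPR hx)

end Pool.Agent.H883B
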