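import Mathlib
import Pool.Agent.H883B.Stmts

set_option autoImplicit false
set_option linter.all false

/-! T11: every infinite 2-group has an infinite locally finite subgroup. -/

namespace Pool.Agent.H883B

universe u

theorem exists_sq_taskTwo {G : Type u} [Group G] (h2 : ∀ g : G, ∃ n : ℕ, g ^ 2 ^ n = 1)
    (M D : Subgroup G) [Finite M] (hD : D < M) :
    ∃ u ∈ M, u ∉ D ∧ u ∈ Subgroup.normalizer (D : Set G) ∧ u * u ∈ D := by
  haveI : Fact (Nat.Prime 2) := ⟨Nat.prime_two⟩
  have hp : IsPGroup 2 M := by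
    intro g
    obtain ⟨n, hn⟩ := h2 g.1
    exact ⟨n, Subtype.ext (by simpa using hn)⟩
  haveI := hp.isNilpotent
  have h1 : D.subgroupOf M < ⊤ := by
    rw [lt_top_iff_ne_top]
    intro h
    rw [Subgroup.subgroupOf_eq_top] at h
    exact hD.not_ge h
  have hnc : NormalizerCondition M := by
    first
      | exact normalizerCondition_of_isNilpotent
      | exact Group.normalizerCondition_of_isNilpotent
      | exact Subgroup.normalizerCondition_of_isNilpotent
  have h3 := hnc _ h1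
  obtain ⟨x, hx1, hx2⟩ := SetLike.exists_of_lt h3
  rw [← Subgroup.subgroupOf_normalizer_eq hD.le, Subgroup.mem_subgroupOf] at hx1
  rw [Subgroup.mem_subgroupOf] at hx2
  -- the least power lying in `D`
  have hex : ∃ n : ℕ, (x : G) ^ 2 ^ n ∈ D := by
    obtain ⟨n, hn⟩ := h2 x
    exact ⟨n, by rw [hn]; exact D.one_mem⟩
  classical
  let j := Nat.find hex
  have hj : (x : G) ^ 2 ^ j ∈ D := Nat.find_spec hex
  have hj0 : j ≠ 0 := by
    intro h0
    rw [h0] at hj
    simp only [pow_zero, pow_one] at hj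
    exact hx2 hj
  have hmin : (x : G) ^ 2 ^ (j - 1) ∉ D := Nat.find_min hex (by omega)
  refine ⟨(x : G) ^ 2 ^ (j - 1), M.pow_mem x.2 _, hmin, Subgroup.pow_mem _ hx1 _, ?_⟩
  rw [← pow_add, ← two_mul, ← pow_succ']
  have h4 : j - 1 + 1 = j := by omega
  rw [h4]
  exact hj

/-- dihedral groups are finite -/
theorem dihedral_taskTwo {Q : Type u} [Group Q] (a b : Q) (ha : a * a = 1) (hb : b * b = 1)
    (hab : IsOfFinOrder (a * b)) : ∃ W : Subgroup Q, Finite W ∧ a ∈ W ∧ b ∈ W := by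
  have ha' : a⁻¹ = a := inv_eq_of_mul_eq_one_right ha
  have hb' : b⁻¹ = b := inv_eq_of_mul_eq_one_right hb
  have hconj : ∀ i : ℤ, a * (a * b) ^ i = (a * b) ^ (-i) * a := by
    intro i
    have h1 : a * (a * b) * a⁻¹ = (a * b)⁻¹ := by
      rw [mul_inv_rev, ha', hb', ← mul_assoc, ha, one_mul]
    have h2 : a * (a * b) ^ i * a⁻¹ = ((a * b)⁻¹) ^ i := by
      rw [← conj_zpow, h1]
    rw [mul_inv_eq_iff_eq_mul] at h2
    rw [h2, inv_zpow, zpow_neg]
  let W : Subgroup Q :=
    { carrier := {x | ∃ i : ℤ, x = (a * b) ^ i ∨ x = (a * b) ^ i * a}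
      mul_mem' := by
        rintro x y ⟨i, hx⟩ ⟨j, hy⟩
        rcases hx with rfl | rfl <;> rcases hy with rfl | rfl
        · exact ⟨i + j, Or.inl (by rw [zpow_add])⟩
        · exact ⟨i + j, Or.inr (by rw [zpow_add, mul_assoc])⟩
        · refine ⟨i - j, Or.inr ?_⟩
          rw [mul_assoc, hconj, ← mul_assoc, ← zpow_add, sub_eq_add_neg]
        · refine ⟨i - j, Or.inl ?_⟩
          rw [mul_assoc, ← mul_assoc a, hconj, mul_assoc, ha, mul_one, ← zpow_add, sub_eq_add_neg]
      one_mem' := ⟨0, Or.inl (by simp)⟩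
      inv_mem' := by
        rintro x ⟨i, rfl | rfl⟩
        · exact ⟨-i, Or.inl (by rw [zpow_neg])⟩
        · refine ⟨i, Or.inr ?_⟩
          rw [mul_inv_rev, ha', ← zpow_neg, hconj, neg_neg] }
  refine ⟨W, ?_, ⟨0, Or.inr (by simp)⟩, ⟨-1, Or.inr ?_⟩⟩
  · have hz : Finite (Subgroup.zpowers (a * b)) := by
      have := finite_zpowers.mpr hab
      exact this
    have hz' : (Subgroup.zpowers (a * b) : Set Q).Finite := hz
    have h1 : (W : Set Q) ⊆ (Subgroup.zpowers (a * b) : Set Q) ∪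
        (fun x => x * a) '' (Subgroup.zpowers (a * b) : Set Q) := by
      rintro x ⟨i, rfl | rfl⟩
      · exact Or.inl (Subgroup.zpow_mem_zpowers _ _)
      · exact Or.inr ⟨_, Subgroup.zpow_mem_zpowers _ _, rfl⟩
    exact (hz'.union (hz'.image _)).subset h1
  · rw [zpow_neg_one, mul_inv_rev, ha', hb', mul_assoc, ha, mul_one]

/-- the subgroup generated by `D` and two involutions modulo `D` -/
theorem join_taskTwo {G : Type u} [Group G] (h2 : ∀ g : G, ∃ n : ℕ, g ^ 2 ^ n = 1)
    (D : Subgroup G) [Finite D] (x y : G) (hx : x ∈ Subgroup.normalizer (D : Set G))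
    (hy : y ∈ Subgroup.normalizer (D : Set G)) (hxx : x * x ∈ D) (hyy : y * y ∈ D) :
    ∃ T : Subgroup G, Finite T ∧ D ≤ T ∧ x ∈ T ∧ y ∈ T := by
  let N := Subgroup.normalizer (D : Set G)
  have hDN : D ≤ N := Subgroup.le_normalizer
  let π : N →* N ⧸ (D.subgroupOf N) := QuotientGroup.mk' _
  have hfo : IsOfFinOrder (π ⟨x, hx⟩ * π ⟨y, hy⟩) := by
    obtain ⟨n, hn⟩ := h2 (x * y)
    rw [isOfFinOrder_iff_pow_eq_one]
    refine ⟨2 ^ n, by positivity, ?_⟩
    rw [← map_mul, ← map_pow]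
    have h1 : ((⟨x, hx⟩ : N) * ⟨y, hy⟩) ^ 2 ^ n = 1 := Subtype.ext (by simpa using hn)
    rw [h1, map_one]
  obtain ⟨W, hW, hxW, hyW⟩ := dihedral_taskTwo (π ⟨x, hx⟩) (π ⟨y, hy⟩)
    (by
      rw [← map_mul]
      exact (QuotientGroup.eq_one_iff _).mpr (Subgroup.mem_subgroupOf.mpr hxx))
    (by
      rw [← map_mul]
      exact (QuotientGroup.eq_one_iff _).mpr (Subgroup.mem_subgroupOf.mpr hyy)) hfo
  have hfin : Finite (W.comap π) := by
    have hW' : (W : Set (N ⧸ (D.subgroupOf N))).Finite := hW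
    have hDfin : (D : Set G).Finite := ‹Finite D›
    have h1 : ((W.comap π : Subgroup N) : Set N).Finite := by
      refine Set.Finite.preimage' (f := π) hW' ?_
      intro b _
      by_cases hb : ∃ z : N, π z = b
      · obtain ⟨z, hz⟩ := hb
        have h2 : (π ⁻¹' {b}) ⊆ (fun w : N => z⁻¹ * w) ⁻¹' ((D.subgroupOf N : Subgroup N) : Set N) := by
          intro w hw
          have hw' : π w = b := hw
          have h3 : π z = π w := by rw [hz, hw']
          exact QuotientGroup.eq.mp h3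
        have hDN' : ((D.subgroupOf N : Subgroup N) : Set N).Finite := by
          have : (fun w : N => (w : G)) ⁻¹' (D : Set G) = ((D.subgroupOf N : Subgroup N) : Set N) := rfl
          rw [← this]
          exact hDfin.preimage (Subtype.coe_injective.injOn)
        refine Set.Finite.subset ?_ h2
        exact hDN'.preimage ((mul_right_injective z⁻¹).injOn)
      · have h2 : (π ⁻¹' {b}) = ∅ := by
          ext w
          simp only [Set.mem_preimage, Set.mem_singleton_iff, Set.mem_empty_iff_false, iff_false]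
          exact fun h => hb ⟨w, h⟩
        rw [h2]
        exact Set.finite_empty
    exact h1
  refine ⟨(W.comap π).map N.subtype, ?_, ?_, ?_, ?_⟩
  · have h1 : (((W.comap π).map N.subtype : Subgroup G) : Set G).Finite := by
      rw [Subgroup.coe_map]
      exact Set.Finite.image _ hfin
    exact h1
  · intro d hd
    refine ⟨⟨d, hDN hd⟩, ?_, rfl⟩
    show π ⟨d, hDN hd⟩ ∈ W
    have h1 : π ⟨d, hDN hd⟩ = 1 :=
      (QuotientGroup.eq_one_iff _).mpr (Subgroup.mem_subgroupOf.mpr hd)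
    rw [h1]
    exact W.one_mem
  · exact ⟨⟨x, hx⟩, hxW, rfl⟩
  · exact ⟨⟨y, hy⟩, hyW, rfl⟩

/-- no finite subgroup is maximal -/
theorem not_max_taskTwo {G : Type u} [Group G] (hG : Infinite G)
    (h2 : ∀ g : G, ∃ n : ℕ, g ^ 2 ^ n = 1) (M : Subgroup G) [hM : Finite M] :
    ∃ T : Subgroup G, Finite T ∧ M < T := by
  classical
  by_contra hcon
  push Not at hcon
  have hmax : ∀ T : Subgroup G, Finite T → M ≤ T → T = M := by
    intro T hT hle
    by_contra hne
    exact hcon T hT (lt_of_le_of_ne hle (Ne.symm hne))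
  -- a finite subgroup outside
  have hex : ∃ K : Subgroup G, Finite K ∧ ¬ K ≤ M := by
    obtain ⟨y, hy⟩ : ∃ y : G, y ∉ M := by
      by_contra hc
      push Not at hc
      have : (M : Set G) = Set.univ := Set.eq_univ_of_forall hc
      have hf : (Set.univ : Set G).Finite := this ▸ (hM : (M : Set G).Finite)
      exact Set.infinite_univ hf
    refine ⟨Subgroup.zpowers y, ?_, ?_⟩
    · obtain ⟨n, hn⟩ := h2 y
      have h1 : IsOfFinOrder y := by
        rw [isOfFinOrder_iff_pow_eq_one]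
        exact ⟨2 ^ n, by positivity, hn⟩
      have h3 := finite_zpowers.mpr h1
      exact h3
    · intro h
      exact hy (h (Subgroup.mem_zpowers y))
  -- one with the largest intersection
  have hbd : ∀ K : Subgroup G, Nat.card (K ⊓ M : Subgroup G) ≤ Nat.card M := fun K =>
    Subgroup.card_le_of_le inf_le_right
  let P : ℕ → Prop := fun n => ∃ K : Subgroup G, Finite K ∧ ¬ K ≤ M ∧
    Nat.card (K ⊓ M : Subgroup G) = n
  have hP : ∃ n, P n := by
    obtain ⟨K, hK1, hK2⟩ := hex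
    exact ⟨_, K, hK1, hK2, rfl⟩
  obtain ⟨n0, hn0⟩ := hP
  have hn0le : n0 ≤ Nat.card M := by
    obtain ⟨K, _, _, rfl⟩ := hn0
    exact hbd K
  have hspec : P (Nat.findGreatest P (Nat.card M)) := Nat.findGreatest_spec hn0le hn0
  obtain ⟨K, hKf, hKM, hKc⟩ := hspec
  have hgreat : ∀ T : Subgroup G, Finite T → ¬ T ≤ M →
      Nat.card (T ⊓ M : Subgroup G) ≤ Nat.card (K ⊓ M : Subgroup G) := by
    intro T hT hTM
    rw [hKc]
    exact Nat.le_findGreatest (hbd T) ⟨T, hT, hTM, rfl⟩
  have hDM : K ⊓ M < M := by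
    refine lt_of_le_of_ne inf_le_right ?_
    intro h
    have h1 : M ≤ K := inf_eq_right.mp h
    exact hKM (hmax K hKf h1).le
  have hDK : K ⊓ M < K := by
    refine lt_of_le_of_ne inf_le_left ?_
    intro h
    exact hKM (inf_eq_left.mp h)
  haveI : Finite (K ⊓ M : Subgroup G) :=
    Finite.of_injective (Subgroup.inclusion inf_le_right) (Subgroup.inclusion_injective _)
  obtain ⟨x, hxM, hxD, hxN, hxx⟩ := exists_sq_taskTwo h2 M (K ⊓ M) hDM
  obtain ⟨y, hyK, hyD, hyN, hyy⟩ := exists_sq_taskTwo h2 K (K ⊓ M) hDK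
  obtain ⟨T, hT, hDT, hxT, hyT⟩ := join_taskTwo h2 (K ⊓ M) x y hxN hyN hxx hyy
  have hyM : y ∉ M := fun h => hyD ⟨hyK, h⟩
  have hTM : ¬ T ≤ M := fun h => hyM (h hyT)
  have h3 := hgreat T hT hTM
  have h4 : K ⊓ M < T ⊓ M := by
    refine lt_of_le_of_ne (le_inf hDT inf_le_right) ?_
    intro h
    exact hxD (h ▸ (⟨hxT, hxM⟩ : x ∈ T ⊓ M))
  haveI : Finite (T ⊓ M : Subgroup G) :=
    Finite.of_injective (Subgroup.inclusion inf_le_right) (Subgroup.inclusion_injective _)
  have h5 : ((K ⊓ M : Subgroup G) : Set G) ⊂ ((T ⊓ M : Subgroup G) : Set G) := h4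
  have h6 := Set.ncard_lt_ncard h5 (Set.toFinite _)
  have h7 : Nat.card (K ⊓ M : Subgroup G) = ((K ⊓ M : Subgroup G) : Set G).ncard := rfl
  have h8 : Nat.card (T ⊓ M : Subgroup G) = ((T ⊓ M : Subgroup G) : Set G).ncard := rfl
  rw [h7, h8] at h3
  exact absurd h6 (not_lt.mpr h3)

theorem locFin_taskTwo {G : Type u} [Group G] (T : Subgroup G) [hT : Finite T] : LocFin T := by
  intro s hs
  have h1 : Subgroup.closure (s : Set G) ≤ T := (Subgroup.closure_le T).mpr (fun x hx => hs x hx)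
  exact Finite.of_injective (Subgroup.inclusion h1) (Subgroup.inclusion_injective _)

theorem taskTwo : TaskTwo.{u} := by
  intro G _ hG h2
  classical
  -- a maximal locally finite subgroup
  obtain ⟨H, -, hH⟩ := zorn_le_nonempty₀ {H : Subgroup G | LocFin H} (by
    intro c hc hch y hy
    refine ⟨sSup c, ?_, fun z hz => le_sSup hz⟩
    have hne : c.Nonempty := ⟨y, hy⟩
    have hdir : DirectedOn (· ≤ ·) c := hch.directedOn
    intro s hs
    have h1 : ∀ t : Finset G, (∀ x ∈ t, x ∈ sSup c) → ∃ K ∈ c, ∀ x ∈ t, x ∈ K := by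
      intro t
      induction t using Finset.induction_on with
      | empty => exact fun _ => ⟨y, hy, by simp⟩
      | insert a t hat ih =>
        intro h
        obtain ⟨K, hK, hK2⟩ := ih (fun x hx => h x (Finset.mem_insert_of_mem hx))
        obtain ⟨K', hK', hK2'⟩ := (Subgroup.mem_sSup_of_directedOn hne hdir).mp
          (h a (Finset.mem_insert_self _ _))
        obtain ⟨K3, hK3, h3, h4⟩ := hdir K hK K' hK'
        refine ⟨K3, hK3, ?_⟩
        intro x hx
        rcases Finset.mem_insert.mp hx with rfl | hx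
        · exact h4 hK2'
        · exact h3 (hK2 x hx)
    obtain ⟨K, hK, hK2⟩ := h1 s hs
    exact hc hK s hK2) ⊥ (locFin_taskTwo ⊥)
  refine ⟨H, hH.prop, ?_⟩
  by_contra hinf
  rw [not_infinite_iff_finite] at hinf
  obtain ⟨T, hT, hlt⟩ := not_max_taskTwo hG h2 H
  have h1 : T ≤ H := hH.le_of_ge (locFin_taskTwo T) hlt.le
  exact hlt.not_ge h1

end Pool.Agent.H883B
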